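import Pool.Agent.K4H2.TG.Two

set_option autoImplicit false

/-!
# Positions of the generators
-/

namespace Pool.Agent.K4H2.TG

open scoped commutatorElement

theorem pow3_max {x y z w : ℕ} (hxy : x ≤ y) (h : 3 ^ x + 3 ^ y = 3 ^ z + 3 ^ w) : w ≤ y := by
  by_contra hcon
  push Not at hcon
  have h1 : 3 ^ (y + 1) ≤ 3 ^ w := Nat.pow_le_pow_right (by norm_num) hcon
  have h2 : 3 ^ x ≤ 3 ^ y := Nat.pow_le_pow_right (by norm_num) hxy
  have h3 : 0 < 3 ^ z := by positivity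
  have h4 : 0 < 3 ^ y := by positivity
  rw [pow_succ] at h1
  omega

theorem pow3_inj {x y : ℕ} (h : 3 ^ x = 3 ^ y) : x = y := Nat.pow_right_injective (by norm_num) h

theorem pow3_sum' {x y z w : ℕ} (hxy : x ≤ y) (hzw : z ≤ w) (h : 3 ^ x + 3 ^ y = 3 ^ z + 3 ^ w) :
    x = z ∧ y = w := by
  have h1 : y = w := le_antisymm (pow3_max hzw h.symm) (pow3_max hxy h)
  subst h1
  exact ⟨pow3_inj (by omega), rfl⟩

theorem pow3_sum {x y z w : ℕ} (h : 3 ^ x + 3 ^ y = 3 ^ z + 3 ^ w) :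
    (x = z ∧ y = w) ∨ (x = w ∧ y = z) := by
  rcases le_total x y with h1 | h1 <;> rcases le_total z w with h2 | h2
  · exact Or.inl (pow3_sum' h1 h2 h)
  · have := pow3_sum' h1 h2 (by omega)
    omega
  · have := pow3_sum' h1 h2 (by omega)
    omega
  · have := pow3_sum' h1 h2 (by omega)
    omega

section pos

variable {ι : Type} (M l : ι → ℕ)

/-- the moduli -/
abbrev mm (i : ι) : ℕ := M i * 3 ^ (l i + 1)

/-- the positions -/
def pos (i : ι) (a : Fin (l i)) : ZMod (mm M l i) := ((M i * 3 ^ (a : ℕ) : ℕ) : ZMod (mm M l i))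

instance [∀ i, NeZero (M i)] (i : ι) : NeZero (mm M l i) :=
  ⟨Nat.mul_ne_zero (NeZero.ne _) (pow_ne_zero _ (by norm_num))⟩

theorem pos_lt (i : ι) (a : Fin (l i)) : 9 * 3 ^ (a : ℕ) ≤ 3 ^ (l i + 1) := by
  have h1 : (a : ℕ) + 2 ≤ l i + 1 := by
    have := a.isLt
    omega
  have h2 := Nat.pow_le_pow_right (show 0 < 3 by norm_num) h1
  rw [pow_add] at h2
  omega

variable [∀ i, NeZero (M i)]

theorem pos_sum (i : ι) (a b c d : Fin (l i)) (h : pos M l i a + pos M l i b =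
    pos M l i c + pos M l i d) : (a = c ∧ b = d) ∨ (a = d ∧ b = c) := by
  unfold pos at h
  rw [← Nat.cast_add, ← Nat.cast_add, ZMod.natCast_eq_natCast_iff', ← mul_add, ← mul_add] at h
  have hM : 0 < M i := Nat.pos_of_ne_zero (NeZero.ne _)
  have ha := pos_lt l i a
  have hb := pos_lt l i b
  have hc := pos_lt l i c
  have hd := pos_lt l i d
  have hp : 0 < 3 ^ (l i + 1) := by positivity
  have e1 : M i * (3 ^ (a : ℕ) + 3 ^ (b : ℕ)) < mm M l i :=
    Nat.mul_lt_mul_of_pos_left (by omega) hM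
  have e2 : M i * (3 ^ (c : ℕ) + 3 ^ (d : ℕ)) < mm M l i :=
    Nat.mul_lt_mul_of_pos_left (by omega) hM
  rw [Nat.mod_eq_of_lt e1, Nat.mod_eq_of_lt e2] at h
  have h2 := Nat.eq_of_mul_eq_mul_left hM h
  rcases pow3_sum h2 with ⟨h3, h4⟩ | ⟨h3, h4⟩
  · exact Or.inl ⟨Fin.ext h3, Fin.ext h4⟩
  · exact Or.inr ⟨Fin.ext h3, Fin.ext h4⟩

theorem pos_inj (i : ι) : Function.Injective (pos M l i) := by
  intro a b h
  rcases pos_sum M l i a a b b (by rw [h]) with ⟨h1, _⟩ | ⟨h1, _⟩ <;> exact h1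

variable {P : ι → Type} [∀ i, Group (P i)]

/-- the coordinates of the generator -/
noncomputable def ff (p : ∀ i, Fin (l i) → P i) (i : ι) : ZMod (mm M l i) → P i :=
  Function.extend (pos M l i) (p i) 1

theorem ff_pos (p : ∀ i, Fin (l i) → P i) (i : ι) (a : Fin (l i)) :
    ff M l p i (pos M l i a) = p i a := (pos_inj M l i).extend_apply _ _ _

omit [∀ i, NeZero (M i)] in
theorem ff_ne (p : ∀ i, Fin (l i) → P i) (i : ι) (n : ZMod (mm M l i)) (h : ff M l p i n ≠ 1) :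
    ∃ a, pos M l i a = n := by
  by_contra hcon
  exact h (Function.extend_apply' _ _ _ hcon)

theorem ff_gen (p : ∀ i, Fin (l i) → P i) (i : ι) (h : Subgroup.closure (Set.range (p i)) = ⊤) :
    Subgroup.closure (Set.range (ff M l p i)) = ⊤ := by
  rw [eq_top_iff, ← h]
  apply Subgroup.closure_mono
  rintro _ ⟨a, rfl⟩
  exact ⟨pos M l i a, ff_pos M l p i a⟩

theorem ff_prod (p : ∀ i, Fin (l i) → P i) (i : ι) (ψ : P i →* Multiplicative ℤ) :
    ∏ n, ψ (ff M l p i n) = ∏ a, ψ (p i a) := by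
  symm
  apply Fintype.prod_of_injective (pos M l i) (pos_inj M l i)
  · intro n hn
    have h1 : ff M l p i n = 1 := by
      by_contra h
      obtain ⟨a, ha⟩ := ff_ne M l p i n h
      exact hn ⟨a, ha⟩
    rw [h1, map_one]
  · intro a
    rw [ff_pos]

theorem ff_sep (p : ∀ i, Fin (l i) → P i)
    (hM : ∀ i j, i ≠ j → mm M l i ∣ M j ∨ mm M l j ∣ M i) (i0 : ι) : Sep (ff M l p) i0 := by
  intro u v huv hu hv
  obtain ⟨a, rfl⟩ := ff_ne M l p i0 u hu
  obtain ⟨b, rfl⟩ := ff_ne M l p i0 v hv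
  have hab : a ≠ b := fun h => huv (by rw [h])
  refine ⟨((M i0 * 3 ^ (a : ℕ) : ℕ) : ℤ) - ((M i0 * 3 ^ (b : ℕ) : ℕ) : ℤ), ?_, ?_, ?_⟩
  · rw [Int.cast_sub, Int.cast_natCast, Int.cast_natCast]
    unfold pos
    ring
  · intro n hn
    have hcast : (((((M i0 * 3 ^ (a : ℕ) : ℕ) : ℤ) - ((M i0 * 3 ^ (b : ℕ) : ℕ) : ℤ) : ℤ)) :
        ZMod (mm M l i0)) = pos M l i0 a - pos M l i0 b := by
      rw [Int.cast_sub, Int.cast_natCast, Int.cast_natCast]
      rfl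
    rw [hcast]
    by_cases h1 : ff M l p i0 n = 1
    · rw [h1, commutatorElement_one_left]
    by_cases h2 : ff M l p i0 (n - (pos M l i0 a - pos M l i0 b)) = 1
    · rw [h2, commutatorElement_one_right]
    exfalso
    obtain ⟨c, rfl⟩ := ff_ne M l p i0 n h1
    obtain ⟨d, hd⟩ := ff_ne M l p i0 _ h2
    rcases pos_sum M l i0 c b d a (by rw [hd]; ring) with ⟨h3, h4⟩ | ⟨h3, h4⟩
    · exact hab h4.symm
    · exact hn (by rw [h3])
  · intro i hi n
    have hM0 : (M i0 : ℤ) ≠ 0 := by exact_mod_cast NeZero.ne (M i0)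
    set e : ℤ := ((M i0 * 3 ^ (a : ℕ) : ℕ) : ℤ) - ((M i0 * 3 ^ (b : ℕ) : ℕ) : ℤ) with he
    have he' : e = (M i0 : ℤ) * ((3 : ℤ) ^ (a : ℕ) - (3 : ℤ) ^ (b : ℕ)) := by
      rw [he]
      push_cast
      ring
    rcases hM i0 i (Ne.symm hi) with h | h
    · by_cases h1 : ff M l p i n = 1
      · rw [h1, commutatorElement_one_left]
      by_cases h2 : ff M l p i (n - (e : ZMod (mm M l i))) = 1
      · rw [h2, commutatorElement_one_right]
      exfalso
      obtain ⟨c, rfl⟩ := ff_ne M l p i n h1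
      obtain ⟨d, hd⟩ := ff_ne M l p i _ h2
      have h3 : (e : ZMod (mm M l i)) = pos M l i c - pos M l i d := by rw [hd]; ring
      have h4 : pos M l i c - pos M l i d = (((((M i * 3 ^ (c : ℕ) : ℕ) : ℤ) -
          ((M i * 3 ^ (d : ℕ) : ℕ) : ℤ) : ℤ)) : ZMod (mm M l i)) := by
        rw [Int.cast_sub, Int.cast_natCast, Int.cast_natCast]
        rfl
      rw [h4, ZMod.intCast_eq_intCast_iff_dvd_sub] at h3
      have h5 : (M i : ℤ) ∣ e := by
        have h6 : (M i : ℤ) ∣ (((M i * 3 ^ (c : ℕ) : ℕ) : ℤ) - ((M i * 3 ^ (d : ℕ) : ℕ) : ℤ)) - e :=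
          dvd_trans ⟨((3 ^ (l i + 1) : ℕ) : ℤ), by push_cast; ring⟩ h3
        have h7 : (M i : ℤ) ∣ (((M i * 3 ^ (c : ℕ) : ℕ) : ℤ) - ((M i * 3 ^ (d : ℕ) : ℕ) : ℤ)) :=
          ⟨((3 : ℤ) ^ (c : ℕ) - (3 : ℤ) ^ (d : ℕ)), by push_cast; ring⟩
        have h8 := dvd_sub h7 h6
        rwa [sub_sub_cancel] at h8
      have h6 : ((mm M l i0 : ℕ) : ℤ) ∣ e := dvd_trans (Int.natCast_dvd_natCast.2 h) h5
      have h7 : ((3 : ℤ) ^ (l i0 + 1)) ∣ ((3 : ℤ) ^ (a : ℕ) - (3 : ℤ) ^ (b : ℕ)) := by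
        rw [he'] at h6
        have h8 : (M i0 : ℤ) * (3 : ℤ) ^ (l i0 + 1) ∣
            (M i0 : ℤ) * ((3 : ℤ) ^ (a : ℕ) - (3 : ℤ) ^ (b : ℕ)) := by
          convert h6 using 1
          push_cast
          ring
        exact (mul_dvd_mul_iff_left hM0).1 h8
      have ha := pos_lt l i0 a
      have hb := pos_lt l i0 b
      have ha' : (9 : ℤ) * 3 ^ (a : ℕ) ≤ 3 ^ (l i0 + 1) := by exact_mod_cast ha
      have hb' : (9 : ℤ) * 3 ^ (b : ℕ) ≤ 3 ^ (l i0 + 1) := by exact_mod_cast hb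
      have pa : (0 : ℤ) < 3 ^ (a : ℕ) := by positivity
      have pb : (0 : ℤ) < 3 ^ (b : ℕ) := by positivity
      have h8 : ((3 : ℤ) ^ (a : ℕ) - (3 : ℤ) ^ (b : ℕ)) = 0 := by
        apply Int.eq_zero_of_abs_lt_dvd h7
        rw [abs_lt]
        constructor <;> linarith
      have h9 : (3 : ℤ) ^ (a : ℕ) = (3 : ℤ) ^ (b : ℕ) := by linarith
      have h10 : 3 ^ (a : ℕ) = 3 ^ (b : ℕ) := by exact_mod_cast h9
      exact hab (Fin.ext (pow3_inj h10))
    · have h1 : (e : ZMod (mm M l i)) = 0 := by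
        rw [ZMod.intCast_zmod_eq_zero_iff_dvd]
        exact dvd_trans (Int.natCast_dvd_natCast.2 h) ⟨_, he'⟩
      rw [h1, sub_zero, commutatorElement_self]

end pos

/-- the moduli for sequences -/
def MM (l : ℕ → ℕ) : ℕ → ℕ
  | 0 => 1
  | n + 1 => MM l n * 3 ^ (l n + 1)

instance (l : ℕ → ℕ) (n : ℕ) : NeZero (MM l n) := by
  constructor
  induction n with
  | zero => exact one_ne_zero
  | succ n ih => exact Nat.mul_ne_zero ih (pow_ne_zero _ (by norm_num))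

theorem MM_dvd (l : ℕ → ℕ) {i j : ℕ} (h : i ≤ j) : MM l i ∣ MM l j := by
  induction j, h using Nat.le_induction with
  | base => exact dvd_rfl
  | succ n _ ih => exact dvd_trans ih ⟨_, rfl⟩

theorem MM_sep (l : ℕ → ℕ) (i j : ℕ) (h : i ≠ j) : mm (MM l) l i ∣ MM l j ∨ mm (MM l) l j ∣ MM l i := by
  rcases Nat.lt_or_gt_of_ne h with h | h
  · exact Or.inl (MM_dvd l (i := i + 1) h)
  · exact Or.inr (MM_dvd l (i := j + 1) h)

end Pool.Agent.K4H2.TG
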