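import Pool.Agent.K4H2.TG.K
import Pool.Agent.K4H2.TG.Pos

set_option autoImplicit false

/-!
# Abelianisations and realisations
-/

namespace Pool.Agent.K4H2.TG

open Matrix TH57.Thr
open Pool.Agent.K4H37.UG (GR rmap umap umap_comp rmap_single umap_id)
open scoped commutatorElement

/-- the structure of the abelianisation of a finitely generated group -/
theorem ab_struct {H : Type} [Group H] [hfg : Group.FG H] :
    ∃ (n : ℕ) (a : Fin n → (H →* Multiplicative ℤ)) (h : Fin n → H), ∀ g : H, ∃ k : ℕ, 0 < k ∧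
      (Abelianization.of g * (∏ i, (Abelianization.of (h i)) ^
        (Multiplicative.toAdd (a i g)))⁻¹) ^ k = 1 := by
  classical
  have h0 : Group.FG (Abelianization H) :=
    Group.fg_of_surjective (f := (Abelianization.of : H →* Abelianization H))
      QuotientGroup.mk_surjective
  have h1 : AddGroup.FG (Additive (Abelianization H)) := GroupFG.iff_add_fg.1 h0
  have h2 : Module.Finite ℤ (Additive (Abelianization H)) := Module.Finite.iff_addGroup_fg.2 h1
  let T := Submodule.torsion ℤ (Additive (Abelianization H))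
  have h3 : Module.Free ℤ (Additive (Abelianization H) ⧸ T) := inferInstance
  let b := Module.finBasis ℤ (Additive (Abelianization H) ⧸ T)
  have h4 : ∀ i, ∃ z : H, T.mkQ (Additive.ofMul (Abelianization.of z)) = b i := by
    intro i
    obtain ⟨z, hz⟩ := T.mkQ_surjective (b i)
    obtain ⟨y, hy⟩ := QuotientGroup.mk_surjective (Additive.toMul z)
    refine ⟨y, ?_⟩
    rw [← hz]
    congr 1
  choose h hh using h4
  refine ⟨_, fun i =>
    { toFun := fun g => Multiplicative.ofAdd
        (b.repr (T.mkQ (Additive.ofMul (Abelianization.of g))) i)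
      map_one' := by simp
      map_mul' := fun x y => by
        rw [map_mul, ofMul_mul, map_add, map_add, Finsupp.add_apply, ofAdd_add] }, h, ?_⟩
  intro g
  have h5 : Additive.ofMul (Abelianization.of g) - ∑ i,
      (b.repr (T.mkQ (Additive.ofMul (Abelianization.of g))) i) •
        (Additive.ofMul (Abelianization.of (h i))) ∈ T := by
    rw [← Submodule.Quotient.mk_eq_zero, ← Submodule.mkQ_apply, map_sub, map_sum, sub_eq_zero]
    simp only [map_smul, hh]
    exact (b.sum_repr _).symm
  rw [Submodule.mem_torsion_iff] at h5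
  obtain ⟨c, hc⟩ := h5
  have hc0 : (c : ℤ) ≠ 0 := nonZeroDivisors.coe_ne_zero c
  refine ⟨(c : ℤ).natAbs, Int.natAbs_pos.2 hc0, ?_⟩
  have h6 : ((c : ℤ).natAbs : ℤ) • (Additive.ofMul (Abelianization.of g) - ∑ i,
      (b.repr (T.mkQ (Additive.ofMul (Abelianization.of g))) i) •
        (Additive.ofMul (Abelianization.of (h i)))) = 0 := by
    have h7 : (c : ℤ) • (Additive.ofMul (Abelianization.of g) - ∑ i,
      (b.repr (T.mkQ (Additive.ofMul (Abelianization.of g))) i) •
        (Additive.ofMul (Abelianization.of (h i)))) = 0 := hc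
    rcases Int.natAbs_eq (c : ℤ) with h8 | h8
    · rw [← h8]
      exact h7
    · rw [h8, neg_smul, neg_eq_zero] at h7
      exact h7
  apply Additive.ofMul.injective
  rw [ofMul_pow, ofMul_mul, ofMul_inv, ofMul_prod, ofMul_one, ← sub_eq_add_neg]
  rw [natCast_zsmul] at h6
  exact h6

/-- homomorphisms preserve stable triviality -/
theorem TT_umap {H G κ : Type} [Group H] [Group G] [Fintype κ] [DecidableEq κ] (f : H →* G)
    {y : (Matrix κ κ (GR H))ˣ} (h : TT (TU H) y) : TT (TU G) (umap f κ y) :=
  TT_map (TU H) (TU G) (rmap f) (by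
    rintro u ⟨g, ε, hu⟩
    refine ⟨f g, ε, ?_⟩
    change rmap f (u : GR H) = _
    rw [hu, rmap_single]) y h

/-- `A ^ N` is controlled by the group `Cyc m E` -/
def Realised (N : ℕ) {G : Type} [Group G] {κ : Type} [Fintype κ] [DecidableEq κ]
    (A : (Matrix κ κ (GR G))ˣ) (m : ℕ) (E : Type) [Group E] : Prop :=
  ∃ (H : Type) (_ : Group H) (s : H →* Cyc m E) (A' : (Matrix κ κ (GR H))ˣ),
    (∀ g, s g ∈ commutator (Cyc m E)) ∧
    ∀ k : ℕ, TT (TU (Cyc m E)) ((umap s κ A') ^ k) → TT (TU G) (A ^ (k * N))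

theorem realised_of {G H E κ : Type} [Group G] [Group H] [Group E] [Fintype κ] [DecidableEq κ]
    {r n : ℕ} (x : Fin r → H) (hx : Subgroup.closure (Set.range x) = ⊤)
    (a : Fin n → (H →* Multiplicative ℤ)) (h : Fin n → H) (τ : Fin r → H)
    (hτ : ∀ j, Abelianization.of (τ j) = Abelianization.of (x j) *
      (∏ i, (Abelianization.of (h i)) ^ (Multiplicative.toAdd (a i (x j))))⁻¹)
    (φ : H →* E) (ρ : E →* G) (A : (Matrix κ κ (GR G))ˣ) (A' : (Matrix κ κ (GR H))ˣ)
    (hA : umap (ρ.comp φ) κ A' = A) (N : ℕ) (hN : 0 < N)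
    (hcom : ∀ j, φ (τ j) ^ N ∈ commutator E) : Realised N A (N + n) E := by
  classical
  have : NeZero (N + n) := ⟨by omega⟩
  -- two homomorphisms agree
  have h1 : (powMonoidHom N).comp ((Abelianization.of : E →* Abelianization E).comp φ) =
      ∏ i, (zpowersHom (Abelianization E) (Abelianization.of (φ (h i)) ^ N)).comp (a i) := by
    apply MonoidHom.eq_of_eqOn_dense hx
    rintro _ ⟨j, rfl⟩
    rw [MonoidHom.finsetProd_apply]
    change Abelianization.of (φ (x j)) ^ N =
      ∏ i, (Abelianization.of (φ (h i)) ^ N) ^ (Multiplicative.toAdd (a i (x j)))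
    have h2 := congrArg (Abelianization.map φ) (hτ j)
    rw [map_mul, map_inv, map_prod] at h2
    simp only [map_zpow, Abelianization.map_of] at h2
    have h3 : Abelianization.of (φ (τ j)) ^ N = 1 := by
      rw [← map_pow]
      exact (QuotientGroup.eq_one_iff _).2 (hcom j)
    rw [h2, mul_pow, inv_pow, mul_inv_eq_one] at h3
    rw [h3, ← Finset.prod_pow]
    apply Finset.prod_congr rfl
    intro i _
    rw [← zpow_natCast, ← zpow_natCast, ← _root_.zpow_mul, ← _root_.zpow_mul, mul_comm]
  have eqv : ZMod (N + n) ≃ Fin N ⊕ Fin n := Fintype.equivOfCardEq (by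
    rw [ZMod.card, Fintype.card_sum, Fintype.card_fin, Fintype.card_fin])
  let φs : Fin N ⊕ Fin n → (H →* E) := Sum.elim (fun _ => φ)
    (fun i => (zpowersHom E ((φ (h i))⁻¹ ^ N)).comp (a i))
  let φn : ZMod (N + n) → (H →* E) := fun v => φs (eqv v)
  let s : H →* Cyc (N + n) E := Cyc.base.comp (MonoidHom.pi φn)
  have hs : ∀ g, s g = Cyc.base (fun v => φn v g) := fun g => rfl
  refine ⟨H, inferInstance, s, A', ?_, ?_⟩
  · intro g
    rw [hs]
    apply Cyc.base_mem
    rw [Equiv.prod_comp eqv (fun w => Abelianization.of (φs w g)), Fintype.prod_sum_type]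
    simp only [φs, Sum.elim_inl, Sum.elim_inr, Finset.prod_const, Finset.card_univ,
      Fintype.card_fin]
    have h2 := DFunLike.congr_fun h1 g
    rw [MonoidHom.finsetProd_apply] at h2
    change Abelianization.of (φ g) ^ N =
      ∏ i, (Abelianization.of (φ (h i)) ^ N) ^ (Multiplicative.toAdd (a i g)) at h2
    rw [h2, ← Finset.prod_mul_distrib]
    apply Finset.prod_eq_one
    intro i _
    change _ * Abelianization.of (((φ (h i))⁻¹ ^ N) ^ (Multiplicative.toAdd (a i g))) = 1
    rw [map_zpow, map_pow, map_inv, inv_pow, _root_.inv_zpow, mul_inv_cancel]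
  · intro k hk
    rw [← map_pow] at hk
    let S : Finset (ZMod (N + n)) := Finset.univ.map
      ⟨fun i : Fin N => eqv.symm (Sum.inl i), fun i j hij =>
        Sum.inl_injective (eqv.symm.injective hij)⟩
    have hS : S.card = N := by
      rw [Finset.card_map, Finset.card_univ, Fintype.card_fin]
    have h2 := transfer_F φn s hs S φ (by
      intro v hv
      rw [Finset.mem_map] at hv
      obtain ⟨i, _, rfl⟩ := hv
      change φs (eqv (eqv.symm (Sum.inl i))) = φ
      rw [Equiv.apply_symm_apply]
      rfl) (by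
      intro v hv
      change ∃ (a : H →* Multiplicative ℤ) (b : Multiplicative ℤ →* E), φs (eqv v) = b.comp a
      rcases hw : eqv v with i | i
      · exfalso
        apply hv
        rw [Finset.mem_map]
        refine ⟨i, Finset.mem_univ _, ?_⟩
        change eqv.symm (Sum.inl i) = v
        rw [← hw, Equiv.symm_apply_apply]
      · exact ⟨_, _, rfl⟩) (A' ^ k) hk
    rw [hS] at h2
    have h3 := TT_umap ρ h2
    rw [map_pow, umap_comp, map_pow, hA, ← pow_mul] at h3
    exact h3

/-- the conclusion for the group with two generators -/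
theorem pull {ι : Type} [DecidableEq ι] {P : ι → Type} [∀ i, Group (P i)] {m : ι → ℕ}
    [∀ i, NeZero (m i)] {f : ∀ i, ZMod (m i) → P i} {i0 : ι} (hs : Sep f i0)
    (hf : Subgroup.closure (Set.range (f i0)) = ⊤) {G κ : Type} [Group G] [Fintype κ]
    [DecidableEq κ] {N : ℕ} {A : (Matrix κ κ (GR G))ˣ} {m' : ℕ} {E : Type} [Group E]
    (hP : Nonempty (Cyc m' E ≃* P i0)) (h : Realised N A m' E) :
    ∃ B : (Matrix κ κ (GR (DD f)))ˣ, ∀ k : ℕ, TT (TU (DD f)) (B ^ k) → TT (TU G) (A ^ (k * N)) := by
  obtain ⟨e⟩ := hP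
  obtain ⟨H, iH, s, A', h1, h2⟩ := h
  have h3 : ∀ g, e (s g) ∈ commutator (P i0) := by
    intro g
    have h4 : (commutator (Cyc m' E)).map e.toMonoidHom ≤ commutator (P i0) := by
      rw [commutator_def, Subgroup.map_commutator]
      exact Subgroup.commutator_mono le_top le_top
    exact h4 (Subgroup.mem_map_of_mem _ (h1 g))
  let φD : H →* DD f := ((emb i0).comp (e.toMonoidHom.comp s)).codRestrict (DD f)
    (fun g => commutator_mem hs hf _ (h3 g))
  refine ⟨umap φD κ A', fun k hk => h2 k ?_⟩
  rw [← map_pow] at hk ⊢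
  let π : DD f →* Cyc (m i0) (P i0) := (Pi.evalMonoidHom _ i0).comp (DD f).subtype
  have h4 := TT_umap π hk
  rw [umap_comp] at h4
  let φn : ZMod (m i0) → (H →* P i0) := fun v => if v = 0 then e.toMonoidHom.comp s else 1
  have h5 : ∀ g, (π.comp φD) g = Cyc.base (fun v => φn v g) := by
    intro g
    change (emb i0 (e (s g)) : ∀ i, Cyc (m i) (P i)) i0 = _
    rw [emb_apply, Pi.mulSingle_eq_same]
    congr 1
    funext v
    by_cases hv : v = 0
    · subst hv
      rw [Pi.mulSingle_eq_same]
      simp [φn]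
    · rw [Pi.mulSingle_eq_of_ne hv]
      simp [φn, hv]
  have h6 := transfer_F φn (π.comp φD) h5 {0} (e.toMonoidHom.comp s) (by
    intro v hv
    rw [Finset.mem_singleton] at hv
    simp [φn, hv]) (by
    intro v hv
    rw [Finset.mem_singleton] at hv
    refine ⟨1, 1, ?_⟩
    simp only [φn, if_neg hv]
    rfl) (A' ^ k) h4
  rw [Finset.card_singleton, pow_one] at h6
  have h7 := TT_umap e.symm.toMonoidHom h6
  rw [umap_comp] at h7
  have h8 : e.symm.toMonoidHom.comp (e.toMonoidHom.comp s) = s := by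
    apply MonoidHom.ext
    intro g
    change e.symm (e (s g)) = s g
    exact e.symm_apply_apply _
  rw [h8] at h7
  exact h7

end Pool.Agent.K4H2.TG
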