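import Mathlib

set_option autoImplicit false

/-!
# The groups `Cyc m P`
-/

namespace Pool.Agent.K4H2.TG

open scoped commutatorElement

/-- The elements of the semidirect product of `P ^ m` with the integers, which act by shifting the
coordinates cyclically. -/
@[ext] structure Cyc (m : ℕ) (P : Type) where
  /-- the coordinates -/
  f : ZMod m → P
  /-- the shift -/
  k : ℤ

namespace Cyc

variable {m : ℕ} {P : Type} [Group P]

instance : Mul (Cyc m P) := ⟨fun x y => ⟨fun n => x.f n * y.f (n - (x.k : ZMod m)), x.k + y.k⟩⟩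
instance : One (Cyc m P) := ⟨⟨fun _ => 1, 0⟩⟩
instance : Inv (Cyc m P) := ⟨fun x => ⟨fun n => (x.f (n + (x.k : ZMod m)))⁻¹, -x.k⟩⟩

theorem mul_f (x y : Cyc m P) (n : ZMod m) : (x * y).f n = x.f n * y.f (n - (x.k : ZMod m)) := rfl
theorem mul_k (x y : Cyc m P) : (x * y).k = x.k + y.k := rfl
theorem one_f (n : ZMod m) : (1 : Cyc m P).f n = 1 := rfl
theorem one_k : (1 : Cyc m P).k = 0 := rfl
theorem inv_f (x : Cyc m P) (n : ZMod m) : (x⁻¹).f n = (x.f (n + (x.k : ZMod m)))⁻¹ := rfl
theorem inv_k (x : Cyc m P) : (x⁻¹).k = -x.k := rfl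

instance : Group (Cyc m P) := Group.ofLeftAxioms
  (by
    intro x y z
    ext n
    · rw [mul_f, mul_f, mul_f, mul_f, mul_k, mul_assoc]
      congr 3
      push_cast
      ring
    · rw [mul_k, mul_k, mul_k, mul_k, add_assoc])
  (by
    intro x
    ext n
    · rw [mul_f, one_f, one_k, one_mul]
      simp
    · rw [mul_k, one_k, zero_add])
  (by
    intro x
    ext n
    · rw [mul_f, inv_f, inv_k, one_f]
      have : n - ((-x.k : ℤ) : ZMod m) = n + (x.k : ZMod m) := by push_cast; ring
      rw [this, inv_mul_cancel]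
    · rw [mul_k, inv_k, one_k]
      ring)

/-- the shift as a homomorphism -/
def kh : Cyc m P →* Multiplicative ℤ where
  toFun x := Multiplicative.ofAdd x.k
  map_one' := rfl
  map_mul' _ _ := rfl

/-- the elements without shift -/
def base : (ZMod m → P) →* Cyc m P where
  toFun f := ⟨f, 0⟩
  map_one' := rfl
  map_mul' f g := by
    ext n
    · rw [mul_f]
      simp
    · rw [mul_k]
      simp

theorem base_f (f : ZMod m → P) : (base f).f = f := rfl
theorem base_k (f : ZMod m → P) : (base f).k = 0 := rfl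

/-- the shift by `k` -/
def sh : Multiplicative ℤ →* Cyc m P where
  toFun k := ⟨1, Multiplicative.toAdd k⟩
  map_one' := rfl
  map_mul' f g := by
    ext n
    · rw [mul_f]
      simp
    · rw [mul_k]
      simp

theorem sh_f (k : Multiplicative ℤ) : (sh k : Cyc m P).f = 1 := rfl
theorem sh_k (k : Multiplicative ℤ) : (sh k : Cyc m P).k = Multiplicative.toAdd k := rfl

/-- conjugation by a shift -/
theorem sh_conj (k : Multiplicative ℤ) (f : ZMod m → P) :
    sh k * base f * (sh k)⁻¹ = base (fun n => f (n - ((Multiplicative.toAdd k : ℤ) : ZMod m))) := by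
  ext n
  · rw [mul_f, mul_f, inv_f, sh_f, base_f, base_f, sh_k]
    simp
  · rw [mul_k, mul_k, inv_k, base_k, base_k, sh_k]
    ring

theorem eq_base_sh (x : Cyc m P) : x = base x.f * sh (Multiplicative.ofAdd x.k) := by
  ext n
  · rw [mul_f, base_f, sh_f]
    simp
  · rw [mul_k, base_k, sh_k]
    simp

theorem torsionFree (hP : ∀ g : P, ∀ k : ℕ, 0 < k → g ^ k = 1 → g = 1) (x : Cyc m P) (k : ℕ)
    (hk : 0 < k) (h : x ^ k = 1) : x = 1 := by
  have h1 : x.k = 0 := by
    have h2 := congrArg (kh (m := m) (P := P)) h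
    rw [map_pow, map_one] at h2
    have h3 : (k : ℤ) * x.k = 0 := by
      have := congrArg Multiplicative.toAdd h2
      rw [toAdd_pow, toAdd_one] at this
      simpa [kh] using this
    rcases mul_eq_zero.1 h3 with h4 | h4
    · omega
    · exact h4
  have h2 : x = base x.f := by
    ext n
    · rfl
    · rw [base_k, h1]
  rw [h2, ← map_pow] at h
  have h3 : x.f ^ k = 1 := congrArg Cyc.f h
  have h4 : x.f = 1 := by
    funext n
    exact hP _ k hk (congrFun h3 n)
  rw [h2, h4, map_one]

section fin

variable [NeZero m]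

/-- the abelianisation of an element without shift -/
theorem base_mem (f : ZMod m → P) (h : ∏ n, Abelianization.of (f n) = 1) :
    (base f : Cyc m P) ∈ commutator (Cyc m P) := by
  let u : P →* Abelianization (Cyc m P) := Abelianization.of.comp
    (base.comp (MonoidHom.mulSingle (fun _ : ZMod m => P) 0))
  have h1 : ∀ (n : ZMod m) (x : P),
      Abelianization.of (base (Pi.mulSingle n x) : Cyc m P) = u x := by
    intro n x
    have h2 : (base (Pi.mulSingle n x) : Cyc m P) = sh (Multiplicative.ofAdd (n.val : ℤ)) *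
        base (Pi.mulSingle 0 x) * (sh (Multiplicative.ofAdd (n.val : ℤ)))⁻¹ := by
      rw [sh_conj]
      congr 1
      funext i
      have h3 : (((Multiplicative.toAdd (Multiplicative.ofAdd (n.val : ℤ)) : ℤ)) : ZMod m) = n := by
        simp
      rw [h3]
      by_cases h4 : i = n
      · subst h4
        simp
      · rw [Pi.mulSingle_eq_of_ne h4, Pi.mulSingle_eq_of_ne (sub_ne_zero.2 h4)]
    rw [h2, map_mul, map_mul, map_inv, mul_inv_cancel_comm]
    rfl
  have h2 : (Abelianization.of.comp base : (ZMod m → P) →* Abelianization (Cyc m P)) =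
      ∏ n, u.comp (Pi.evalMonoidHom (fun _ : ZMod m => P) n) := by
    apply MonoidHom.pi_ext
    intro n x
    rw [MonoidHom.finsetProd_apply, Finset.prod_eq_single n]
    · change Abelianization.of (base (Pi.mulSingle n x) : Cyc m P) =
        u ((Pi.mulSingle n x : ZMod m → P) n)
      rw [h1, Pi.mulSingle_eq_same]
    · intro i _ hi
      change u ((Pi.mulSingle n x : ZMod m → P) i) = 1
      rw [Pi.mulSingle_eq_of_ne hi, map_one]
    · intro h
      exact absurd (Finset.mem_univ _) h
  have h3 : Abelianization.of (base f : Cyc m P) = 1 := by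
    have h4 := DFunLike.congr_fun h2 f
    rw [MonoidHom.finsetProd_apply] at h4
    have h5 : ∀ x, u x = Abelianization.lift u (Abelianization.of x) := fun x => by simp
    change Abelianization.of (base f : Cyc m P) = ∏ n, u (f n) at h4
    rw [h4, Finset.prod_congr rfl fun n _ => h5 (f n), ← map_prod, h, map_one]
  exact (QuotientGroup.eq_one_iff _).1 h3

/-- a hom into the integers, summed over the coordinates -/
def sumh (ψ : P →* Multiplicative ℤ) : Cyc m P →* Multiplicative ℤ where
  toFun x := ∏ n, ψ (x.f n)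
  map_one' := by simp [one_f]
  map_mul' x y := by
    simp only [mul_f, map_mul]
    rw [Finset.prod_mul_distrib]
    congr 1
    exact Equiv.prod_comp (Equiv.subRight (x.k : ZMod m)) (fun n => ψ (y.f n))

/-- generators -/
theorem closure_gen {r : ℕ} (x : Fin r → P) (hx : Subgroup.closure (Set.range x) = ⊤) :
    Subgroup.closure (Set.range (Fin.cons (sh (Multiplicative.ofAdd 1)) (fun i => base (Pi.mulSingle 0 (x i))) :
      Fin (r + 1) → Cyc m P)) = ⊤ := by
  set K := Subgroup.closure (Set.range (Fin.cons (sh (Multiplicative.ofAdd 1))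
    (fun i => base (Pi.mulSingle 0 (x i))) : Fin (r + 1) → Cyc m P)) with hK
  have h1 : sh (Multiplicative.ofAdd 1) ∈ K := Subgroup.subset_closure ⟨0, rfl⟩
  have h2 : ∀ i, base (Pi.mulSingle 0 (x i)) ∈ K := fun i => Subgroup.subset_closure ⟨i.succ, rfl⟩
  have h3 : ∀ k, sh k ∈ K := by
    intro k
    have h4 : k = (Multiplicative.ofAdd (1 : ℤ)) ^ (Multiplicative.toAdd k) := by
      rw [← ofAdd_zsmul]
      simp
    rw [h4, map_zpow]
    exact zpow_mem h1 _
  have h4 : ∀ y : P, base (Pi.mulSingle 0 y) ∈ K := by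
    intro y
    have h5 : Subgroup.closure (Set.range x) ≤ K.comap (base.comp
        (MonoidHom.mulSingle (fun _ : ZMod m => P) 0)) := by
      rw [Subgroup.closure_le]
      rintro _ ⟨i, rfl⟩
      exact h2 i
    rw [hx] at h5
    exact h5 (Subgroup.mem_top y)
  have h5 : ∀ (n : ZMod m) (y : P), base (Pi.mulSingle n y) ∈ K := by
    intro n y
    have h2 : (base (Pi.mulSingle n y) : Cyc m P) = sh (Multiplicative.ofAdd (n.val : ℤ)) *
        base (Pi.mulSingle 0 y) * (sh (Multiplicative.ofAdd (n.val : ℤ)))⁻¹ := by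
      rw [sh_conj]
      congr 1
      funext i
      have h3 : (((Multiplicative.toAdd (Multiplicative.ofAdd (n.val : ℤ)) : ℤ)) : ZMod m) = n := by
        simp
      rw [h3]
      by_cases h4 : i = n
      · subst h4
        simp
      · rw [Pi.mulSingle_eq_of_ne h4, Pi.mulSingle_eq_of_ne (sub_ne_zero.2 h4)]
    rw [h2]
    exact mul_mem (mul_mem (h3 _) (h4 _)) (inv_mem (h3 _))
  have h6 : ∀ f : ZMod m → P, base f ∈ K := by
    intro f
    exact Subgroup.pi_mem_of_mulSingle_mem (H := K.comap base) f fun n => h5 n (f n)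
  rw [eq_top_iff]
  intro y _
  rw [eq_base_sh y]
  exact mul_mem (h6 _) (h3 _)

end fin

end Cyc

end Pool.Agent.K4H2.TG
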