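import Pool.Agent.K4H37.UG.Main
import Pool.Agent.K4H37.MT.Fin
import Pool.Agent.Y75.Th.Init
import Pool.Agent.K4H2.TG.Cyc

set_option autoImplicit false
set_option linter.unusedSectionVars false

/-!
# Monomial transfers
-/

namespace Pool.Agent.K4H2.TG

open Matrix TH57.Thr
open Pool.Agent.Y75.Th (dgs dgs_mem TT_pu)
open Pool.Agent.K4H37.UG (GR rmap umap umap_comp rmap_single)
open scoped commutatorElement

section quot

variable {R : Type} [Ring R] {κ : Type} [Fintype κ] [DecidableEq κ] (U : Subgroup Rˣ)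

/-- the stably trivial matrices -/
def TTg : Subgroup (Matrix κ κ R)ˣ where
  carrier := {x | TT U x}
  one_mem' := TT_one U
  mul_mem' := fun {x y} hx hy => TT_mul U x y hx hy
  inv_mem' := fun {x} hx => TT_inv U x hx

theorem commutator_le_TTg : commutator (Matrix κ κ R)ˣ ≤ TTg U := fun x hx =>
  TT_of_mem U x (commutator_le_HH U hx)

theorem exists_q : ∃ (Q : Type) (_ : CommGroup Q) (q : (Matrix κ κ R)ˣ →* Q),
    ∀ x, q x = 1 ↔ TT U x := by
  refine ⟨Abelianization (Matrix κ κ R)ˣ ⧸ (TTg U).map Abelianization.of, inferInstance,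
    (QuotientGroup.mk' _).comp Abelianization.of, ?_⟩
  intro x
  constructor
  · intro h
    have h1 : Abelianization.of x ∈ (TTg U).map Abelianization.of :=
      (QuotientGroup.eq_one_iff _).1 h
    obtain ⟨z, hz, hzx⟩ := h1
    have h2 : z⁻¹ * x ∈ commutator (Matrix κ κ R)ˣ := QuotientGroup.eq.1 hzx
    have h3 : x = z * (z⁻¹ * x) := by group
    rw [h3]
    exact TT_mul U _ _ hz (commutator_le_TTg U h2)
  · intro h
    exact (QuotientGroup.eq_one_iff _).2 ⟨x, h, rfl⟩

end quot

section bd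

variable {R : Type} [Ring R] {κ ν : Type} [Fintype κ] [DecidableEq κ] [Fintype ν] [DecidableEq ν]
  (U : Subgroup Rˣ)

/-- block diagonal matrices -/
def bd : (ν → (Matrix κ κ R)ˣ) →* (Matrix (κ × ν) (κ × ν) R)ˣ where
  toFun b := ⟨blockDiagonal fun n => (b n).val, blockDiagonal fun n => ((b n)⁻¹).val, by
      rw [← blockDiagonal_mul]
      simp only [Units.mul_inv]
      exact blockDiagonal_one, by
      rw [← blockDiagonal_mul]
      simp only [Units.inv_mul]
      exact blockDiagonal_one⟩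
  map_one' := Units.ext blockDiagonal_one
  map_mul' a b := Units.ext (blockDiagonal_mul (fun n => (a n).val) (fun n => (b n).val))

theorem bd_apply (b : ν → (Matrix κ κ R)ˣ) (i j : κ) (a c : ν) :
    (bd b).val (i, a) (j, c) = if a = c then (b a).val i j else 0 :=
  blockDiagonal_apply' (fun n => (b n).val) i a j c

theorem bd_single_re (n n0 : ν) (x : (Matrix κ κ R)ˣ) :
    bd (Pi.mulSingle n x) = Units.map (re (Equiv.prodCongr (Equiv.refl κ) (Equiv.swap n n0)))
      (bd (Pi.mulSingle n0 x)) := by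
  apply Units.ext
  ext ⟨i, a⟩ ⟨j, c⟩
  rw [bd_apply]
  change _ = (bd (Pi.mulSingle n0 x)).val (i, Equiv.swap n n0 a) (j, Equiv.swap n n0 c)
  rw [bd_apply]
  by_cases h : a = c
  · subst h
    rw [if_pos rfl, if_pos rfl]
    by_cases h1 : a = n
    · subst h1
      rw [Equiv.swap_apply_left, Pi.mulSingle_eq_same, Pi.mulSingle_eq_same]
    · have h2 : Equiv.swap n n0 a ≠ n0 := fun h3 => h1
        ((Equiv.swap n n0).injective (h3.trans (Equiv.swap_apply_left n n0).symm))
      rw [Pi.mulSingle_eq_of_ne h1, Pi.mulSingle_eq_of_ne h2]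
  · rw [if_neg h, if_neg fun h1 => h ((Equiv.swap n n0).injective h1)]

/-- splitting off one block -/
def spl (κ : Type) (n0 : ν) : κ × ν ≃ κ ⊕ (κ × {n : ν // n ≠ n0}) where
  toFun p := if h : p.2 = n0 then Sum.inl p.1 else Sum.inr (p.1, ⟨p.2, h⟩)
  invFun := Sum.elim (fun i => (i, n0)) (fun p => (p.1, p.2.1))
  left_inv := by
    rintro ⟨i, n⟩
    by_cases h : n = n0
    · subst h
      simp
    · simp [h]
  right_inv := by
    rintro (i | ⟨i, n, hn⟩)
    · simp
    · simp [hn]

theorem bd_single_stm (n0 : ν) (x : (Matrix κ κ R)ˣ) :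
    bd (Pi.mulSingle n0 x) = Units.map (re (spl κ n0))
      (Units.map (stm (κ × {n : ν // n ≠ n0})) x) := by
  apply Units.ext
  ext ⟨i, a⟩ ⟨j, c⟩
  rw [bd_apply]
  change _ = (fromBlocks x.val 0 0 (1 : Matrix (κ × {n : ν // n ≠ n0}) (κ × {n : ν // n ≠ n0}) R))
    (spl κ n0 (i, a)) (spl κ n0 (j, c))
  by_cases ha : a = n0
  · by_cases hc : c = n0
    · have e1 : spl κ n0 (i, a) = Sum.inl i := by simp [spl, ha]
      have e2 : spl κ n0 (j, c) = Sum.inl j := by simp [spl, hc]
      rw [e1, e2, fromBlocks_apply₁₁, ha, hc, if_pos rfl, Pi.mulSingle_eq_same]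
    · have e1 : spl κ n0 (i, a) = Sum.inl i := by simp [spl, ha]
      have e2 : spl κ n0 (j, c) = Sum.inr (j, ⟨c, hc⟩) := by simp [spl, hc]
      rw [e1, e2, fromBlocks_apply₁₂, if_neg (fun h : a = c => hc (h ▸ ha))]
      rfl
  · by_cases hc : c = n0
    · have e1 : spl κ n0 (i, a) = Sum.inr (i, ⟨a, ha⟩) := by simp [spl, ha]
      have e2 : spl κ n0 (j, c) = Sum.inl j := by simp [spl, hc]
      rw [e1, e2, fromBlocks_apply₂₁, if_neg (fun h : a = c => ha (h ▸ hc))]
      rfl
    · have e1 : spl κ n0 (i, a) = Sum.inr (i, ⟨a, ha⟩) := by simp [spl, ha]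
      have e2 : spl κ n0 (j, c) = Sum.inr (j, ⟨c, hc⟩) := by simp [spl, hc]
      rw [e1, e2, fromBlocks_apply₂₂, Matrix.one_apply, Pi.mulSingle_eq_of_ne ha, Units.val_one]
      simp only [Prod.mk.injEq, Subtype.mk.injEq, Matrix.one_apply]
      by_cases h1 : a = c
      · simp [h1]
      · simp [h1]

theorem TT_bd_single_iff (n0 : ν) (x : (Matrix κ κ R)ˣ) :
    TT U (bd (Pi.mulSingle n0 x)) ↔ TT U x := by
  rw [bd_single_stm]
  constructor
  · intro h
    have h1 := TT_re U (spl κ n0).symm _ h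
    apply TT_unst (μ := κ × {n : ν // n ≠ n0}) U
    convert h1 using 1
    apply Units.ext
    change (Units.map (stm (κ × {n : ν // n ≠ n0})) x).val =
      ((Units.map (stm (κ × {n : ν // n ≠ n0})) x).val.submatrix (spl κ n0) (spl κ n0)).submatrix
        (spl κ n0).symm (spl κ n0).symm
    rw [Matrix.submatrix_submatrix]
    simp
  · intro h
    exact TT_re U _ _ (TT_st U _ h)

theorem TT_bd (b : ν → (Matrix κ κ R)ˣ) (y : (Matrix κ κ R)ˣ) (S : Finset ν)
    (hS : ∀ n ∈ S, b n = y) (hS' : ∀ n, n ∉ S → TT U (b n)) (h : TT U (bd b)) (n0 : ν) :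
    TT U (y ^ S.card) := by
  obtain ⟨Q, iQ, q, hq⟩ := exists_q (κ := κ × ν) U
  have h1 : ∀ n x, q (bd (Pi.mulSingle n x)) = q (bd (Pi.mulSingle n0 x)) := by
    intro n x
    rw [bd_single_re n n0, re_eq, map_mul, map_mul, map_inv, mul_inv_cancel_comm]
  have h2 : (q.comp bd : (ν → (Matrix κ κ R)ˣ) →* Q) =
      ∏ n, (q.comp (bd.comp (MonoidHom.mulSingle (fun _ : ν => (Matrix κ κ R)ˣ) n))).comp
        (Pi.evalMonoidHom (fun _ : ν => (Matrix κ κ R)ˣ) n) := by
    apply MonoidHom.pi_ext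
    intro n x
    rw [MonoidHom.finsetProd_apply, Finset.prod_eq_single n]
    · change _ = q (bd (Pi.mulSingle n ((Pi.mulSingle n x : ν → (Matrix κ κ R)ˣ) n)))
      rw [Pi.mulSingle_eq_same]
      rfl
    · intro i _ hi
      change q (bd (Pi.mulSingle i ((Pi.mulSingle n x : ν → (Matrix κ κ R)ˣ) i))) = 1
      rw [Pi.mulSingle_eq_of_ne hi, Pi.mulSingle_one, map_one, map_one]
    · intro h
      exact absurd (Finset.mem_univ _) h
  have h3 := DFunLike.congr_fun h2 b
  rw [MonoidHom.finsetProd_apply] at h3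
  change q (bd b) = ∏ n, q (bd (Pi.mulSingle n (b n))) at h3
  rw [(hq _).2 h, Finset.prod_congr rfl fun n _ => h1 n (b n)] at h3
  rw [← Finset.prod_subset (Finset.subset_univ S) (fun n _ hn =>
    (hq _).2 ((TT_bd_single_iff U n0 _).2 (hS' n hn))),
    Finset.prod_congr rfl fun n hn => by rw [hS n hn], Finset.prod_const] at h3
  rw [← TT_bd_single_iff U n0, ← hq]
  have h4 : bd (Pi.mulSingle n0 (y ^ S.card)) = bd (Pi.mulSingle n0 y) ^ S.card := by
    rw [Pi.mulSingle_pow, map_pow]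
  rw [h4, map_pow, ← h3]

end bd

section F

variable {m : ℕ} [NeZero m] {P H : Type} [Group P] [Group H] {κ μ : Type} [Fintype κ]
  [DecidableEq κ] [Fintype μ] [DecidableEq μ]

/-- the monomial representation -/
noncomputable def Psi : Cyc m P →* Matrix (ZMod m) (ZMod m) (GR P) where
  toFun x := Matrix.of fun n j => if j = n - (x.k : ZMod m) then MonoidAlgebra.single (x.f n) 1
    else 0
  map_one' := by
    ext1 n j
    rw [Matrix.of_apply, Cyc.one_k, Cyc.one_f, Matrix.one_apply]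
    simp only [Int.cast_zero, sub_zero, eq_comm (a := j)]
    rfl
  map_mul' x y := by
    ext1 n j
    rw [Matrix.mul_apply, Finset.sum_eq_single (n - (x.k : ZMod m))]
    · simp only [Matrix.of_apply, if_true]
      rw [mul_ite, mul_zero, MonoidAlgebra.single_mul_single, Cyc.mul_k, Cyc.mul_f, mul_one]
      congr 1
      push_cast
      rw [sub_sub]
    · intro i _ hi
      rw [Matrix.of_apply, if_neg hi, zero_mul]
    · intro h
      exact absurd (Finset.mem_univ _) h

theorem Psi_apply (x : Cyc m P) (n j : ZMod m) :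
    Psi x n j = if j = n - (x.k : ZMod m) then MonoidAlgebra.single (x.f n) 1 else 0 := rfl

/-- the ring homomorphism -/
noncomputable def Rr : GR (Cyc m P) →+* Matrix (ZMod m) (ZMod m) (GR P) :=
  (MonoidAlgebra.lift ℤ (Matrix (ZMod m) (ZMod m) (GR P)) (Cyc m P) Psi).toRingHom

theorem Rr_single (x : Cyc m P) (z : ℤ) (n j : ZMod m) :
    Rr (MonoidAlgebra.single x z : GR (Cyc m P)) n j =
      if j = n - (x.k : ZMod m) then MonoidAlgebra.single (x.f n) z else 0 := by
  have h1 : Rr (MonoidAlgebra.single x z : GR (Cyc m P)) = z • Psi x := by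
    unfold Rr
    simp
  rw [h1, Matrix.smul_apply, Psi_apply]
  by_cases h : j = n - (x.k : ZMod m)
  · rw [if_pos h, if_pos h]
    simp
  · rw [if_neg h, if_neg h, smul_zero]

/-- the ring homomorphism of matrix rings -/
noncomputable def Fh (κ : Type) [Fintype κ] [DecidableEq κ] :
    Matrix κ κ (GR (Cyc m P)) →+* Matrix (κ × ZMod m) (κ × ZMod m) (GR P) :=
  (Matrix.compRingEquiv κ (ZMod m) (GR P)).toRingHom.comp (Rr.mapMatrix)

theorem Fh_apply (X : Matrix κ κ (GR (Cyc m P))) (i j : κ) (n l : ZMod m) :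
    Fh κ X (i, n) (j, l) = Rr (X i j) n l := rfl

/-- the homomorphism of the groups of invertible matrices -/
noncomputable def Fu (κ : Type) [Fintype κ] [DecidableEq κ] :
    (Matrix κ κ (GR (Cyc m P)))ˣ →* (Matrix (κ × ZMod m) (κ × ZMod m) (GR P))ˣ :=
  Units.map (Fh (m := m) (P := P) κ).toMonoidHom

theorem Fu_val (X : (Matrix κ κ (GR (Cyc m P)))ˣ) : (Fu κ X).val = Fh κ X.val := rfl

theorem Fu_dgm (i : κ) (u : (GR (Cyc m P))ˣ) (hu : u ∈ TU (Cyc m P)) :
    TT (TU P) (Fu κ (Units.map (dgm i) u)) := by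
  obtain ⟨x, ε, h⟩ := (mem_TU u).1 hu
  have hε : (ε : ℤ) * (ε : ℤ) = 1 := by exact_mod_cast Int.units_coe_mul_self ε
  let a : κ × ZMod m → P := fun p => if p.1 = i then x.f p.2 else 1
  let δ : κ × ZMod m → ℤ := fun p => if p.1 = i then (ε : ℤ) else 1
  have hδ : ∀ p, δ p * δ p = 1 := by
    intro p
    by_cases h : p.1 = i
    · simp only [δ, if_pos h, hε]
    · simp only [δ, if_neg h, mul_one]
  let e : κ × ZMod m ≃ κ × ZMod m := Equiv.prodShear (Equiv.refl κ)
    (fun j => if j = i then Equiv.subRight (x.k : ZMod m) else Equiv.refl _)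
  have h1 : Fu κ (Units.map (dgm i) u) = dgs a δ hδ * pu e := by
    apply Units.ext
    rw [Units.val_mul, Fu_val]
    ext1 ⟨j, n⟩ ⟨j', l⟩
    rw [Fh_apply]
    change Rr (Matrix.diagonal (Function.update 1 i (u : GR (Cyc m P))) j j') n l =
      (Matrix.diagonal (fun p => MonoidAlgebra.single (a p) (δ p)) * (pu e : (Matrix _ _ (GR P))ˣ).val)
        (j, n) (j', l)
    rw [Matrix.diagonal_mul, Pool.Agent.K4H37.MT.pu_apply]
    by_cases hj : j = i
    · subst hj
      have e1 : e (j, n) = (j, n - (x.k : ZMod m)) := by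
        simp [e]
      by_cases hj' : j = j'
      · subst hj'
        rw [Matrix.diagonal_apply_eq, Function.update_self, h, Rr_single, e1]
        simp only [a, δ, if_true, Prod.mk.injEq, true_and]
        by_cases hl : l = n - (x.k : ZMod m)
        · rw [if_pos hl, if_pos hl.symm, mul_one]
        · rw [if_neg hl, if_neg fun h => hl h.symm, mul_zero]
      · rw [Matrix.diagonal_apply_ne _ hj', map_zero, e1, if_neg, mul_zero]
        · rfl
        · intro h2
          exact hj' (congrArg Prod.fst h2)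
    · have e1 : e (j, n) = (j, n) := by
        simp [e, hj]
      by_cases hj' : j = j'
      · subst hj'
        rw [Matrix.diagonal_apply_eq, Function.update_of_ne hj, Pi.one_apply, map_one, e1,
          Matrix.one_apply]
        simp only [a, δ, if_neg hj, Prod.mk.injEq, true_and]
        rw [← MonoidAlgebra.one_def, one_mul]
      · rw [Matrix.diagonal_apply_ne _ hj', map_zero, e1, if_neg, mul_zero]
        · rfl
        · intro h2
          exact hj' (congrArg Prod.fst h2)
  rw [h1]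
  exact TT_mul _ _ _ (TT_of_mem _ _ (dgs_mem a δ hδ)) (TT_pu e)

theorem Fu_HH (x : (Matrix κ κ (GR (Cyc m P)))ˣ) (hx : x ∈ HH (TU (Cyc m P)) κ) :
    TT (TU P) (Fu κ x) := by
  have h1 : HH (TU (Cyc m P)) κ ≤ (TTg (TU P)).comap (Fu κ) := by
    apply sup_le
    · rw [← Subgroup.map_le_iff_le_comap, commutator_def, Subgroup.map_commutator]
      exact le_trans (Subgroup.commutator_mono le_top le_top) (commutator_le_TTg _)
    · rw [Subgroup.closure_le]
      rintro _ ⟨i, u, hu, rfl⟩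
      exact Fu_dgm i u hu
  exact h1 hx

theorem Fu_stm (x : (Matrix κ κ (GR (Cyc m P)))ˣ) :
    Units.map (stm (μ × ZMod m)) (Fu κ x) = Units.map (re (Equiv.sumProdDistrib κ μ (ZMod m)).symm)
      (Fu (κ ⊕ μ) (Units.map (stm μ) x)) := by
  apply Units.ext
  ext1 p q
  change _ = Fh (κ ⊕ μ) (stm μ x.val) ((Equiv.sumProdDistrib κ μ (ZMod m)).symm p)
    ((Equiv.sumProdDistrib κ μ (ZMod m)).symm q)
  change (fromBlocks (Fh κ x.val) 0 0 1) p q = _
  rcases p with ⟨i, n⟩ | ⟨i, n⟩ <;> rcases q with ⟨j, l⟩ | ⟨j, l⟩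
  · rfl
  · change (0 : GR P) = Rr (0 : GR (Cyc m P)) n l
    rw [map_zero]
    rfl
  · change (0 : GR P) = Rr (0 : GR (Cyc m P)) n l
    rw [map_zero]
    rfl
  · change (1 : Matrix (μ × ZMod m) (μ × ZMod m) (GR P)) (i, n) (j, l) =
      Rr ((1 : Matrix μ μ (GR (Cyc m P))) i j) n l
    rw [Matrix.one_apply, Matrix.one_apply]
    by_cases h : i = j
    · subst h
      simp only [Prod.mk.injEq, true_and, if_true]
      rw [map_one, Matrix.one_apply]
    · rw [if_neg h, map_zero, if_neg fun h1 => h (congrArg Prod.fst h1)]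
      rfl

/-- **The transfer** respects stable triviality. -/
theorem TT_Fu (x : (Matrix κ κ (GR (Cyc m P)))ˣ) (hx : TT (TU (Cyc m P)) x) :
    TT (TU P) (Fu κ x) := by
  obtain ⟨μ, i1, i2, h⟩ := hx
  have h1 := Fu_HH _ h
  have h2 := TT_re (TU P) (Equiv.sumProdDistrib κ μ (ZMod m)).symm _ h1
  rw [← Fu_stm] at h2
  exact TT_unst _ _ h2

theorem Rr_base (φn : ZMod m → H →* P) (φ : H →* Cyc m P)
    (hφ : ∀ g, φ g = Cyc.base (fun n => φn n g)) (x : GR H) :
    Rr (rmap φ x) = Matrix.diagonal (fun n => rmap (φn n) x) := by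
  induction x using MonoidAlgebra.induction_linear with
  | zero =>
    simp only [map_zero]
    exact Matrix.diagonal_zero.symm
  | add x y hx hy =>
    rw [map_add, map_add, hx, hy, Matrix.diagonal_add]
    congr 1
    funext n
    rw [map_add]
  | single g z =>
    rw [rmap_single]
    ext1 n l
    rw [Rr_single, hφ, Cyc.base_k, Cyc.base_f, Matrix.diagonal_apply, Int.cast_zero, sub_zero,
      rmap_single]
    by_cases h : l = n
    · rw [if_pos h, if_pos h.symm]
    · rw [if_neg h, if_neg fun h1 => h h1.symm]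

theorem Fu_umap (φn : ZMod m → H →* P) (φ : H →* Cyc m P)
    (hφ : ∀ g, φ g = Cyc.base (fun n => φn n g)) (y : (Matrix κ κ (GR H))ˣ) :
    Fu κ (umap φ κ y) = bd (fun n => umap (φn n) κ y) := by
  apply Units.ext
  ext1 ⟨i, n⟩ ⟨j, l⟩
  rw [bd_apply, Fu_val, Fh_apply]
  change Rr (rmap φ (y.val i j)) n l = if n = l then rmap (φn n) (y.val i j) else 0
  rw [Rr_base φn φ hφ, Matrix.diagonal_apply]

/-- homomorphisms through the integers give trivial classes -/
theorem TT_through (a : H →* Multiplicative ℤ) (b : Multiplicative ℤ →* P)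
    (y : (Matrix κ κ (GR H))ˣ) : TT (TU P) (umap (b.comp a) κ y) := by
  rw [← umap_comp]
  have h := TT_map (TU (Multiplicative ℤ)) (TU P) (rmap b) (by
    rintro u ⟨g, ε, hu⟩
    refine ⟨b g, ε, ?_⟩
    change rmap b (u : GR (Multiplicative ℤ)) = _
    rw [hu, rmap_single]) (umap a κ y) (TT_La κ _)
  exact h

/-- **Main lemma on transfers.** -/
theorem transfer_F (φn : ZMod m → H →* P) (φ : H →* Cyc m P)
    (hφ : ∀ g, φ g = Cyc.base (fun n => φn n g)) (S : Finset (ZMod m)) (ψ : H →* P)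
    (hS : ∀ n ∈ S, φn n = ψ)
    (hS' : ∀ n, n ∉ S → ∃ (a : H →* Multiplicative ℤ) (b : Multiplicative ℤ →* P),
      φn n = b.comp a)
    (y : (Matrix κ κ (GR H))ˣ) (h : TT (TU (Cyc m P)) (umap φ κ y)) :
    TT (TU P) ((umap ψ κ y) ^ S.card) := by
  have h1 := TT_Fu _ h
  rw [Fu_umap φn φ hφ] at h1
  refine TT_bd (TU P) (fun n => umap (φn n) κ y) (umap ψ κ y) S (fun n hn => ?_) (fun n hn => ?_) h1 0
  · change umap (φn n) κ y = _
    rw [hS n hn]
  · obtain ⟨a, b, hab⟩ := hS' n hn
    change TT (TU P) (umap (φn n) κ y)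
    rw [hab]
    exact TT_through a b y

end F

end Pool.Agent.K4H2.TG
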