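import Pool.Agent.K4H2.TG.Ab

set_option autoImplicit false

/-!
# Realisation in groups with two generators
-/

namespace Pool.Agent.K4H2.TG

open Matrix TH57.Thr
open Pool.Agent.K4H37.UG (GR rmap umap umap_comp rmap_single umap_id TorsionFree Fac TF torK liftTF
  tf_torsionFree comProd exists_list prod_mem' exists_data size rels)
open scoped commutatorElement

/-- the torsion of the abelianisation is killed by `N` -/
def Exp (N : ℕ) (G : Type) [Group G] : Prop :=
  ∀ g : G, ∀ k : ℕ, 0 < k → g ^ k ∈ commutator G → g ^ N ∈ commutator G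

theorem exists_fin (G : Type) [Group G] [hG : Group.FG G] :
    ∃ (r : ℕ) (x : Fin r → G), Subgroup.closure (Set.range x) = ⊤ := by
  classical
  obtain ⟨S, hS⟩ := Group.fg_def.1 hG
  refine ⟨S.card, fun k => ((S.equivFin.symm k : S) : G), ?_⟩
  rw [← hS]
  congr 1
  ext g
  constructor
  · rintro ⟨k, rfl⟩
    exact (S.equivFin.symm k).2
  · intro hg
    exact ⟨S.equivFin ⟨g, hg⟩, by simp⟩

/-- the projection of the free group -/
def pr (σ : Σ r : ℕ, Finset (FreeGroup (Fin r))) : FreeGroup (Fin σ.1) →* Fac σ :=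
  (QuotientGroup.mk' (torK _)).comp (PresentedGroup.mk _)

theorem pr_surj (σ : Σ r : ℕ, Finset (FreeGroup (Fin r))) : Function.Surjective (pr σ) :=
  (QuotientGroup.mk'_surjective _).comp (PresentedGroup.mk_surjective _)

theorem pr_rel (σ : Σ r : ℕ, Finset (FreeGroup (Fin r))) (w : FreeGroup (Fin σ.1)) (hw : w ∈ σ.2) :
    pr σ w = 1 := by
  have h2 : (PresentedGroup.mk (σ.2 : Set (FreeGroup (Fin σ.1))) w) = 1 :=
    PresentedGroup.one_of_mem (Finset.mem_coe.2 hw)
  change QuotientGroup.mk' (torK _) (PresentedGroup.mk _ w) = 1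
  rw [h2, map_one]

theorem fac_lift {G : Type} [Group G] (hG : TorsionFree G)
    (σ : Σ r : ℕ, Finset (FreeGroup (Fin r))) (f : FreeGroup (Fin σ.1) →* G)
    (hf : ∀ w ∈ σ.2, f w = 1) : ∃ ρ : Fac σ →* G, ρ.comp (pr σ) = f := by
  refine ⟨liftTF hG (QuotientGroup.lift _ f ?_), ?_⟩
  · intro w hw
    have h1 : Subgroup.normalClosure (σ.2 : Set (FreeGroup (Fin σ.1))) ≤ f.ker :=
      Subgroup.normalClosure_le_normal fun w hw => hf w hw
    exact h1 hw
  · rfl

/-- the generators of `Fac σ` -/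
def lt (σ : Σ r : ℕ, Finset (FreeGroup (Fin r))) (k : Fin σ.1) : Fac σ := pr σ (FreeGroup.of k)

theorem lt_gen (σ : Σ r : ℕ, Finset (FreeGroup (Fin r))) :
    Subgroup.closure (Set.range (lt σ)) = ⊤ := by
  have h1 : Set.range (lt σ) = pr σ '' (Set.range FreeGroup.of) := by
    rw [← Set.range_comp]
    rfl
  rw [h1, ← MonoidHom.map_closure, FreeGroup.closure_range_of, ← MonoidHom.range_eq_map]
  exact MonoidHom.range_eq_top.2 (pr_surj σ)

instance (σ : Σ r : ℕ, Finset (FreeGroup (Fin r))) : Group.FG (Fac σ) :=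
  Group.fg_iff.2 ⟨Set.range (lt σ), lt_gen σ, Set.finite_range _⟩

/-- every invertible matrix comes from a group `Fac σ` -/
theorem exists_fac {G : Type} [Group G] (hG : TorsionFree G) {n : ℕ}
    (A : (Matrix (Fin n) (Fin n) (GR G))ˣ) :
    ∃ (σ : Σ r : ℕ, Finset (FreeGroup (Fin r))) (ρ : Fac σ →* G)
      (A' : (Matrix (Fin n) (Fin n) (GR (Fac σ)))ˣ), umap ρ (Fin n) A' = A := by
  obtain ⟨d, hd, φ, hφ⟩ := exists_data hG (s := size A.val + size (A⁻¹).val) A
    (Nat.le_add_right _ _) (Nat.le_add_left _ _)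
  exact ⟨⟨d.1, rels d.2.1⟩, φ, d.mat hd, hφ⟩

/-- the starting data -/
def Start {G : Type} [Group G] {n : ℕ} (A : (Matrix (Fin n) (Fin n) (GR G))ˣ) (N : ℕ) : Prop :=
  ∃ (σ : Σ r : ℕ, Finset (FreeGroup (Fin r))) (ρ : Fac σ →* G)
    (A' : (Matrix (Fin n) (Fin n) (GR (Fac σ)))ˣ), umap ρ (Fin n) A' = A ∧
    ∃ (l : ℕ) (a : Fin l → (Fac σ →* Multiplicative ℤ)) (h : Fin l → Fac σ)
      (τ : Fin σ.1 → Fac σ), (∀ j, Abelianization.of (τ j) = Abelianization.of (lt σ j) *
      (∏ i, (Abelianization.of (h i)) ^ (Multiplicative.toAdd (a i (lt σ j))))⁻¹) ∧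
      ∀ j, ρ (τ j) ^ N ∈ commutator G

theorem map_commutator_mem {G H : Type} [Group G] [Group H] (f : G →* H) (x : G)
    (hx : x ∈ commutator G) : f x ∈ commutator H := by
  have h1 : (commutator G).map f ≤ commutator H := by
    rw [commutator_def, Subgroup.map_commutator]
    exact Subgroup.commutator_mono le_top le_top
  exact h1 (Subgroup.mem_map_of_mem _ hx)

theorem start {G : Type} [Group G] (hG : TorsionFree G) {n : ℕ}
    (A : (Matrix (Fin n) (Fin n) (GR G))ˣ) :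
    (∀ N, Exp N G → Start A N) ∧ ∃ N, 0 < N ∧ Start A N := by
  obtain ⟨σ, ρ, A', hA⟩ := exists_fac hG A
  obtain ⟨l, a, h, hk⟩ := ab_struct (H := Fac σ)
  have h1 : ∀ j, ∃ τ : Fac σ, Abelianization.of τ = Abelianization.of (lt σ j) *
      (∏ i, (Abelianization.of (h i)) ^ (Multiplicative.toAdd (a i (lt σ j))))⁻¹ := fun j =>
    QuotientGroup.mk_surjective _
  choose τ hτ using h1
  have h2 : ∀ j, ∃ k, 0 < k ∧ τ j ^ k ∈ commutator (Fac σ) := by
    intro j
    obtain ⟨k, hk0, hk1⟩ := hk (lt σ j)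
    rw [← hτ j, ← map_pow] at hk1
    exact ⟨k, hk0, (QuotientGroup.eq_one_iff _).1 hk1⟩
  choose k hk0 hk1 using h2
  constructor
  · intro N hN
    refine ⟨σ, ρ, A', hA, l, a, h, τ, hτ, fun j => ?_⟩
    apply hN _ (k j) (hk0 j)
    rw [← map_pow]
    exact map_commutator_mem ρ _ (hk1 j)
  · refine ⟨∏ j, k j, Finset.prod_pos fun j _ => hk0 j, σ, ρ, A', hA, l, a, h, τ, hτ, fun j => ?_⟩
    rw [← map_pow]
    apply map_commutator_mem
    obtain ⟨c, hc⟩ := Finset.dvd_prod_of_mem k (Finset.mem_univ j)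
    rw [hc, pow_mul]
    exact pow_mem (hk1 j) c

theorem map_comProd {U V : Type} [Group U] [Group V] (f : U →* V) (L : List (U × U)) :
    f (comProd L) = comProd (L.map fun p => (f p.1, f p.2)) := by
  unfold comProd
  rw [map_list_prod, List.map_map, List.map_map]
  congr 1
  apply List.map_congr_left
  intro p _
  exact map_commutatorElement _ _ _

/-- realisation in a finitely generated subgroup -/
theorem Start.sub {G : Type} [Group G] {n : ℕ} {A : (Matrix (Fin n) (Fin n) (GR G))ˣ} {N : ℕ}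
    (hN : 0 < N) (h : Start A N) :
    ∃ (E : Subgroup G) (m : ℕ), 0 < m ∧ Group.FG E ∧ Realised N A m E := by
  classical
  obtain ⟨σ, ρ, A', hA, l, a, h, τ, hτ, hcom⟩ := h
  choose L hL using fun j => exists_list (hcom j)
  let W : Set G := Set.range (fun i => ρ (lt σ i)) ∪
    ⋃ j, ({x | x ∈ (L j).map Prod.fst} ∪ {x | x ∈ (L j).map Prod.snd})
  have hW : W.Finite := (Set.finite_range _).union
    (Set.finite_iUnion fun j => (List.finite_toSet _).union (List.finite_toSet _))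
  let E : Subgroup G := Subgroup.closure W
  have hE : Group.FG E := by
    rw [Group.fg_iff_subgroup_fg, Subgroup.fg_iff]
    exact ⟨W, rfl, hW⟩
  have h1 : ∀ x, ρ x ∈ E := by
    intro x
    have h2 : Subgroup.closure (Set.range (lt σ)) ≤ E.comap ρ := by
      rw [Subgroup.closure_le]
      rintro _ ⟨i, rfl⟩
      exact Subgroup.subset_closure (Or.inl ⟨i, rfl⟩)
    rw [lt_gen] at h2
    exact h2 (Subgroup.mem_top x)
  have hL1 : ∀ j, ∀ p ∈ L j, p.1 ∈ E ∧ p.2 ∈ E := fun j p hp =>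
    ⟨Subgroup.subset_closure (Or.inr (Set.mem_iUnion.2 ⟨j, Or.inl (List.mem_map_of_mem hp)⟩)),
      Subgroup.subset_closure (Or.inr (Set.mem_iUnion.2 ⟨j, Or.inr (List.mem_map_of_mem hp)⟩))⟩
  let φ : Fac σ →* E := ρ.codRestrict E h1
  have h3 : ∀ j, φ (τ j) ^ N ∈ commutator E := by
    intro j
    let L' : List (E × E) := (L j).attach.map fun p =>
      (⟨p.1.1, (hL1 j p.1 p.2).1⟩, ⟨p.1.2, (hL1 j p.1 p.2).2⟩)
    have h4 : φ (τ j) ^ N = comProd L' := by
      apply E.subtype_injective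
      rw [map_comProd, map_pow]
      change ρ (τ j) ^ N = _
      rw [hL j, List.map_map]
      congr 1
      exact (List.attach_map_subtype_val (L j)).symm
    rw [h4]
    exact prod_mem' L'
  exact ⟨E, N + l, by omega, hE, realised_of (lt σ) (lt_gen σ) a h τ hτ φ E.subtype A A' hA N hN h3⟩

/-- extension of `Fac σ` -/
theorem fac_extend {G : Type} [Group G] (hG : TorsionFree G)
    (σ : Σ r : ℕ, Finset (FreeGroup (Fin r))) (ρ : Fac σ →* G) (N : ℕ) (τ : Fin σ.1 → Fac σ)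
    (hτ : ∀ j, ρ (τ j) ^ N ∈ commutator G) :
    ∃ (σ' : Σ r : ℕ, Finset (FreeGroup (Fin r))) (φ : Fac σ →* Fac σ') (ρ' : Fac σ' →* G),
      ρ'.comp φ = ρ ∧ ∀ j, φ (τ j) ^ N ∈ commutator (Fac σ') := by
  classical
  choose L hL using fun j => exists_list (hτ j)
  choose w hw using fun j => pr_surj σ (τ j)
  let T : Finset G := Finset.univ.image (fun i => ρ (lt σ i)) ∪
    Finset.univ.biUnion fun j => ((L j).map Prod.fst).toFinset ∪ ((L j).map Prod.snd).toFinset
  let e' : Fin T.card → G := fun k => (T.equivFin.symm k : T).1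
  let ℓ : G → FreeGroup (Fin T.card) := fun g =>
    if h : g ∈ T then FreeGroup.of (T.equivFin ⟨g, h⟩) else 1
  have hℓ : ∀ g ∈ T, FreeGroup.lift e' (ℓ g) = g := by
    intro g hg
    simp only [ℓ, dif_pos hg, FreeGroup.lift_apply_of, e', Equiv.symm_apply_apply]
  have hT1 : ∀ i, ρ (lt σ i) ∈ T := fun i =>
    Finset.mem_union_left _ (Finset.mem_image_of_mem _ (Finset.mem_univ i))
  have hT2 : ∀ j, ∀ p ∈ L j, p.1 ∈ T ∧ p.2 ∈ T := by
    intro j p hp
    constructor
    · apply Finset.mem_union_right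
      rw [Finset.mem_biUnion]
      exact ⟨j, Finset.mem_univ _, Finset.mem_union_left _
        (List.mem_toFinset.2 (List.mem_map_of_mem hp))⟩
    · apply Finset.mem_union_right
      rw [Finset.mem_biUnion]
      exact ⟨j, Finset.mem_univ _, Finset.mem_union_right _
        (List.mem_toFinset.2 (List.mem_map_of_mem hp))⟩
  let c : FreeGroup (Fin σ.1) →* FreeGroup (Fin T.card) :=
    FreeGroup.lift (fun i => ℓ (ρ (lt σ i)))
  have hc : (FreeGroup.lift e').comp c = ρ.comp (pr σ) := by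
    apply FreeGroup.ext_hom
    intro i
    change FreeGroup.lift e' (c (FreeGroup.of i)) = ρ (lt σ i)
    rw [FreeGroup.lift_apply_of, hℓ _ (hT1 i)]
  have hc' : ∀ x, FreeGroup.lift e' (c x) = ρ (pr σ x) := fun x => DFunLike.congr_fun hc x
  let z : Fin σ.1 → FreeGroup (Fin T.card) := fun j => comProd ((L j).map fun p => (ℓ p.1, ℓ p.2))
  have hz : ∀ j, FreeGroup.lift e' (z j) = ρ (τ j) ^ N := by
    intro j
    rw [map_comProd, hL j, List.map_map]
    congr 1
    conv_rhs => rw [← List.map_id (L j)]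
    apply List.map_congr_left
    intro p hp
    exact Prod.ext (hℓ _ (hT2 j p hp).1) (hℓ _ (hT2 j p hp).2)
  let σ' : Σ r : ℕ, Finset (FreeGroup (Fin r)) := ⟨T.card, σ.2.image c ∪
    Finset.univ.image (fun j => c (w j) ^ N * (z j)⁻¹)⟩
  obtain ⟨ρ', hρ'⟩ := fac_lift hG σ' (FreeGroup.lift e') (by
    intro x hx
    rcases Finset.mem_union.1 hx with hx | hx
    · obtain ⟨y, hy, rfl⟩ := Finset.mem_image.1 hx
      rw [hc', pr_rel σ y hy, map_one]
    · obtain ⟨j, _, rfl⟩ := Finset.mem_image.1 hx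
      rw [map_mul, map_inv, map_pow, hc', hw j, hz j, mul_inv_cancel])
  obtain ⟨φ, hφ⟩ := fac_lift (tf_torsionFree : TorsionFree (Fac σ')) σ ((pr σ').comp c) (by
    intro x hx
    exact pr_rel σ' _ (Finset.mem_union_left _ (Finset.mem_image_of_mem _ hx)))
  refine ⟨σ', φ, ρ', ?_, ?_⟩
  · apply MonoidHom.ext
    intro x
    obtain ⟨y, rfl⟩ := pr_surj σ x
    have h1 : φ (pr σ y) = pr σ' (c y) := DFunLike.congr_fun hφ y
    have h2 : ρ' (pr σ' (c y)) = FreeGroup.lift e' (c y) := DFunLike.congr_fun hρ' (c y)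
    rw [MonoidHom.comp_apply, h1, h2, hc']
  · intro j
    have h1 : φ (pr σ (w j)) = pr σ' (c (w j)) := DFunLike.congr_fun hφ (w j)
    have h2 : pr σ' (c (w j) ^ N * (z j)⁻¹) = 1 :=
      pr_rel σ' _ (Finset.mem_union_right _ (Finset.mem_image_of_mem _ (Finset.mem_univ j)))
    rw [map_mul, map_inv, mul_inv_eq_one, map_pow] at h2
    rw [← hw j, h1, h2]
    exact map_commutator_mem _ _ (prod_mem' _)

/-- realisation in a group `Fac σ` -/
theorem Start.fac {G : Type} [Group G] (hG : TorsionFree G) {n : ℕ}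
    {A : (Matrix (Fin n) (Fin n) (GR G))ˣ} {N : ℕ} (hN : 0 < N) (h : Start A N) :
    ∃ (σ : Σ r : ℕ, Finset (FreeGroup (Fin r))) (m : ℕ), Realised N A (m + 1) (Fac σ) := by
  obtain ⟨σ, ρ, A', hA, l, a, h, τ, hτ, hcom⟩ := h
  obtain ⟨σ', φ, ρ', h1, h2⟩ := fac_extend hG σ ρ N τ hcom
  refine ⟨σ', N + l - 1, ?_⟩
  have h3 : N + l - 1 + 1 = N + l := by omega
  rw [h3]
  exact realised_of (lt σ) (lt_gen σ) a h τ hτ φ ρ' A A' (by rw [h1]; exact hA) N hN h2

section one

variable {E : Type} [Group E]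

/-- the group with two generators for one factor -/
theorem one_factor (hE : TorsionFree E) [Group.FG E] (m : ℕ) (hm : 0 < m) :
    ∃ (D : Type) (_ : Group D) (M : ℕ), 0 < M ∧ TorsionFree D ∧
      (∃ a b : D, Subgroup.closure {a, b} = ⊤) ∧
      Nonempty (Abelianization D ≃* Multiplicative (ℤ × ℤ)) ∧
      (∃ f : D →* Cyc M (Cyc m E), Function.Injective f) ∧
      ∀ {G : Type} [Group G] {n N : ℕ} (A : (Matrix (Fin n) (Fin n) (GR G))ˣ),
        Realised N A m E → ∃ B : (Matrix (Fin n) (Fin n) (GR D))ˣ,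
          ∀ k : ℕ, TT (TU D) (B ^ k) → TT (TU G) (A ^ (k * N)) := by
  have : NeZero m := ⟨by omega⟩
  obtain ⟨r, x, hx⟩ := exists_fin E
  let p : Fin (r + 1) → Cyc m E := Fin.cons (Cyc.sh (Multiplicative.ofAdd 1))
    (fun i => Cyc.base (Pi.mulSingle 0 (x i)))
  have hp : Subgroup.closure (Set.range p) = ⊤ := Cyc.closure_gen x hx
  let f := ff (P := fun _ : Unit => Cyc m E) (fun _ : Unit => 1) (fun _ : Unit => r + 1) (fun _ => p)
  have hsep : Sep f () := ff_sep _ _ _ (fun i j hij => absurd (Subsingleton.elim i j) hij) ()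
  have hgen : Subgroup.closure (Set.range (f ())) = ⊤ := ff_gen _ _ _ () hp
  refine ⟨DD f, inferInstance, mm (fun _ : Unit => 1) (fun _ : Unit => r + 1) (),
    Nat.pos_of_ne_zero (NeZero.ne _), DD_torsionFree f (fun _ => Cyc.torsionFree hE), 
    ⟨_, _, DD_gen f⟩, ?_, ?_, ?_⟩
  · refine DD_ab f () Cyc.kh ((ff_prod (P := fun _ : Unit => Cyc m E) (fun _ : Unit => 1)
      (fun _ : Unit => r + 1) (fun _ => p) () Cyc.kh).trans ?_)
    rw [Fin.prod_univ_succ, Finset.prod_eq_one, mul_one]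
    · rfl
    · intro i _
      rfl
  · refine ⟨(Pi.evalMonoidHom _ ()).comp (DD f).subtype, ?_⟩
    intro a b hab
    apply Subtype.ext
    funext i
    exact hab
  · intro G _ n N A hA
    exact pull hsep hgen ⟨MulEquiv.refl _⟩ hA

end one

/-- the index set of the factors -/
abbrev Idx : Type := ℕ × (Σ r : ℕ, Finset (FreeGroup (Fin r)))

theorem exists_en : ∃ en : ℕ → Idx, Function.Surjective en := exists_surjective_nat Idx

/-- **The universal group with two generators.** -/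
theorem universal :
    ∃ (D : Type) (_ : Group D), TorsionFree D ∧
      (∃ a b : D, Subgroup.closure {a, b} = ⊤) ∧
      Nonempty (Abelianization D ≃* Multiplicative (ℤ × ℤ)) ∧
      ∀ {G : Type} [Group G] {n N : ℕ} (A : (Matrix (Fin n) (Fin n) (GR G))ˣ)
        (σ : Σ r : ℕ, Finset (FreeGroup (Fin r))) (m : ℕ),
        Realised N A (m + 1) (Fac σ) → ∃ B : (Matrix (Fin n) (Fin n) (GR D))ˣ,
          ∀ k : ℕ, TT (TU D) (B ^ k) → TT (TU G) (A ^ (k * N)) := by
  obtain ⟨en, hen⟩ := exists_en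
  let l : ℕ → ℕ := fun j => (en j).2.1 + 1
  let p : ∀ j, Fin (l j) → Cyc ((en j).1 + 1) (Fac (en j).2) := fun j =>
    Fin.cons (Cyc.sh (Multiplicative.ofAdd 1)) (fun i => Cyc.base (Pi.mulSingle 0 (lt (en j).2 i)))
  have hp : ∀ j, Subgroup.closure (Set.range (p j)) = ⊤ := fun j =>
    Cyc.closure_gen (lt (en j).2) (lt_gen (en j).2)
  let f := ff (P := fun j => Cyc ((en j).1 + 1) (Fac (en j).2)) (MM l) l p
  have hsep : ∀ j, Sep f j := fun j => ff_sep _ _ _ (MM_sep l) j
  have hgen : ∀ j, Subgroup.closure (Set.range (f j)) = ⊤ := fun j => ff_gen _ _ _ j (hp j)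
  refine ⟨DD f, inferInstance, DD_torsionFree f (fun j => Cyc.torsionFree tf_torsionFree), 
    ⟨_, _, DD_gen f⟩, ?_, ?_⟩
  · refine DD_ab f 0 Cyc.kh ((ff_prod (P := fun j => Cyc ((en j).1 + 1) (Fac (en j).2)) (MM l) l p
      0 Cyc.kh).trans ?_)
    rw [Fin.prod_univ_succ, Finset.prod_eq_one, mul_one]
    · rfl
    · intro i _
      rfl
  · intro G _ n N A σ m hA
    obtain ⟨j, hj⟩ := hen (m, σ)
    have h1 : m = (en j).1 := by rw [hj]
    have h2 : σ = (en j).2 := by rw [hj]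
    subst h1 h2
    exact pull (hsep j) (hgen j) ⟨MulEquiv.refl _⟩ hA

end Pool.Agent.K4H2.TG
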