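import Pool.Agent.K4H2.TG.Cyc

set_option autoImplicit false

/-!
# Groups with two generators
-/

namespace Pool.Agent.K4H2.TG

open scoped commutatorElement

theorem commutator_le_of_gen {G : Type} [Group G] (H : Subgroup G) [H.Normal] (X : Set G)
    (hX : Subgroup.closure X = ⊤) (h : ∀ x ∈ X, ∀ y ∈ X, ⁅x, y⁆ ∈ H) : commutator G ≤ H := by
  have key : ∀ x y : G, ⁅x, y⁆ ∈ H ↔ (QuotientGroup.mk' H) x * (QuotientGroup.mk' H) y =
      (QuotientGroup.mk' H) y * (QuotientGroup.mk' H) x := by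
    intro x y
    rw [← commutatorElement_eq_one_iff_mul_comm, ← map_commutatorElement]
    exact (QuotientGroup.eq_one_iff _).symm
  have h1 : ∀ y ∈ X, ∀ x : G, ⁅x, y⁆ ∈ H := by
    intro y hy x
    have h2 : Subgroup.closure X ≤
        (Subgroup.centralizer {(QuotientGroup.mk' H) y}).comap (QuotientGroup.mk' H) := by
      rw [Subgroup.closure_le]
      intro z hz
      change (QuotientGroup.mk' H) z ∈ Subgroup.centralizer {(QuotientGroup.mk' H) y}
      rw [Subgroup.mem_centralizer_singleton_iff]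
      exact (key z y).1 (h z hz y hy)
    rw [hX] at h2
    have h3 := h2 (Subgroup.mem_top x)
    change (QuotientGroup.mk' H) x ∈ Subgroup.centralizer {(QuotientGroup.mk' H) y} at h3
    rw [Subgroup.mem_centralizer_singleton_iff] at h3
    exact (key x y).2 h3
  rw [commutator_def, Subgroup.commutator_le]
  intro x _ y _
  have h2 : Subgroup.closure X ≤
      (Subgroup.centralizer {(QuotientGroup.mk' H) x}).comap (QuotientGroup.mk' H) := by
    rw [Subgroup.closure_le]
    intro z hz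
    change (QuotientGroup.mk' H) z ∈ Subgroup.centralizer {(QuotientGroup.mk' H) x}
    rw [Subgroup.mem_centralizer_singleton_iff]
    exact ((key x z).1 (h1 z hz x)).symm
  rw [hX] at h2
  have h3 := h2 (Subgroup.mem_top y)
  change (QuotientGroup.mk' H) y ∈ Subgroup.centralizer {(QuotientGroup.mk' H) x} at h3
  rw [Subgroup.mem_centralizer_singleton_iff] at h3
  exact (key x y).2 h3.symm

/-- the abelianisation of a group with two generators which are independent -/
theorem abZ2 {G : Type} [Group G] (a b : G) (hab : Subgroup.closure {a, b} = ⊤)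
    (α β : G →* Multiplicative ℤ) (h1 : α a = Multiplicative.ofAdd 1) (h2 : α b = 1)
    (h3 : β a = 1) (h4 : β b = Multiplicative.ofAdd 1) :
    Nonempty (Abelianization G ≃* Multiplicative (ℤ × ℤ)) := by
  let F : Abelianization G →* Multiplicative ℤ × Multiplicative ℤ :=
    Abelianization.lift (α.prod β)
  have hgen : ∀ z : Abelianization G, ∃ i j : ℤ,
      (Abelianization.of a) ^ i * (Abelianization.of b) ^ j = z := by
    intro z
    rw [← Subgroup.mem_closure_pair]
    have h5 : (⊤ : Subgroup (Abelianization G)) = Subgroup.closure {Abelianization.of a,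
        Abelianization.of b} := by
      have h6 : (Subgroup.closure {a, b}).map (Abelianization.of (G := G)) = ⊤ := by
        rw [hab, ← MonoidHom.range_eq_map]
        exact MonoidHom.range_eq_top.2 (QuotientGroup.mk_surjective)
      rw [← h6, MonoidHom.map_closure, Set.image_pair]
    rw [← h5]
    exact Subgroup.mem_top z
  have hF : ∀ i j : ℤ, F ((Abelianization.of a) ^ i * (Abelianization.of b) ^ j) =
      (Multiplicative.ofAdd i, Multiplicative.ofAdd j) := by
    intro i j
    rw [map_mul, map_zpow, map_zpow]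
    have e1 : F (Abelianization.of a) = (Multiplicative.ofAdd 1, 1) := by
      change (α a, β a) = _
      rw [h1, h3]
    have e2 : F (Abelianization.of b) = (1, Multiplicative.ofAdd 1) := by
      change (α b, β b) = _
      rw [h2, h4]
    rw [e1, e2]
    ext
    · simp [← ofAdd_zsmul]
    · simp [← ofAdd_zsmul]
  have hbij : Function.Bijective F := by
    constructor
    · rw [injective_iff_map_eq_one]
      intro z hz
      obtain ⟨i, j, rfl⟩ := hgen z
      rw [hF] at hz
      have e1 := congrArg Prod.fst hz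
      have e2 := congrArg Prod.snd hz
      have e3 : i = 0 := e1
      have e4 : j = 0 := e2
      rw [e3, e4]
      simp
    · rintro ⟨i, j⟩
      exact ⟨_, hF (Multiplicative.toAdd i) (Multiplicative.toAdd j)⟩
  exact ⟨(MulEquiv.ofBijective F hbij).trans (MulEquiv.prodMultiplicative ℤ ℤ).symm⟩

section two

variable {ι : Type} {P : ι → Type} [∀ i, Group (P i)] {m : ι → ℕ}

/-- the common shift -/
def shb : Multiplicative ℤ →* (∀ i, Cyc (m i) (P i)) where
  toFun k := fun _ => Cyc.sh k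
  map_one' := by
    funext i
    exact map_one _
  map_mul' a b := by
    funext i
    exact map_mul _ _ _

theorem shb_apply (k : Multiplicative ℤ) (i : ι) :
    (shb k : ∀ i, Cyc (m i) (P i)) i = Cyc.sh k := rfl

/-- the element with the coordinates `f` -/
def cc (f : ∀ i, ZMod (m i) → P i) : ∀ i, Cyc (m i) (P i) := fun i => Cyc.base (f i)

theorem cc_apply (f : ∀ i, ZMod (m i) → P i) (i : ι) : cc f i = Cyc.base (f i) := rfl

/-- the group with two generators -/
def DD (f : ∀ i, ZMod (m i) → P i) : Subgroup (∀ i, Cyc (m i) (P i)) :=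
  Subgroup.closure {cc f, shb (Multiplicative.ofAdd 1)}

theorem cc_mem (f : ∀ i, ZMod (m i) → P i) : cc f ∈ DD f := Subgroup.subset_closure (by simp)

theorem shb_mem (f : ∀ i, ZMod (m i) → P i) (k : Multiplicative ℤ) : shb k ∈ DD f := by
  have h1 : k = (Multiplicative.ofAdd (1 : ℤ)) ^ (Multiplicative.toAdd k) := by
    rw [← ofAdd_zsmul]
    simp
  rw [h1, map_zpow]
  exact zpow_mem (Subgroup.subset_closure (by simp)) _

theorem cc_conj (f : ∀ i, ZMod (m i) → P i) (k : Multiplicative ℤ) :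
    shb k * cc f * (shb k)⁻¹ =
      cc (fun i n => f i (n - ((Multiplicative.toAdd k : ℤ) : ZMod (m i)))) := by
  funext i
  exact Cyc.sh_conj k (f i)

theorem cc_mul (f g : ∀ i, ZMod (m i) → P i) : cc f * cc g = cc (fun i n => f i n * g i n) := by
  funext i
  exact (map_mul Cyc.base (f i) (g i)).symm

theorem cc_inv (f : ∀ i, ZMod (m i) → P i) : (cc f)⁻¹ = cc (fun i n => (f i n)⁻¹) := by
  funext i
  exact (map_inv Cyc.base (f i)).symm

theorem cc_comm (f g : ∀ i, ZMod (m i) → P i) : ⁅cc f, cc g⁆ = cc (fun i n => ⁅f i n, g i n⁆) := by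
  rw [commutatorElement_def, cc_inv, cc_inv, cc_mul, cc_mul, cc_mul]
  rfl

variable [DecidableEq ι]

/-- the embedding of a factor -/
def emb (i0 : ι) : P i0 →* (∀ i, Cyc (m i) (P i)) :=
  (MonoidHom.mulSingle (fun i => Cyc (m i) (P i)) i0).comp
    (Cyc.base.comp (MonoidHom.mulSingle (fun _ : ZMod (m i0) => P i0) 0))

theorem emb_apply (i0 : ι) (x : P i0) :
    (emb i0 x : ∀ i, Cyc (m i) (P i)) = Pi.mulSingle i0 (Cyc.base (Pi.mulSingle 0 x)) := rfl

/-- the separation property -/
def Sep (f : ∀ i, ZMod (m i) → P i) (i0 : ι) : Prop :=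
  ∀ u v : ZMod (m i0), u ≠ v → f i0 u ≠ 1 → f i0 v ≠ 1 →
    ∃ e : ℤ, u - (e : ZMod (m i0)) = v ∧
      (∀ n, n ≠ u → ⁅f i0 n, f i0 (n - (e : ZMod (m i0)))⁆ = 1) ∧
      (∀ i, i ≠ i0 → ∀ n, ⁅f i n, f i (n - (e : ZMod (m i)))⁆ = 1)

theorem Sep.comm_mem [∀ i, NeZero (m i)] {f : ∀ i, ZMod (m i) → P i} {i0 : ι} (hs : Sep f i0)
    (u v : ZMod (m i0)) : ⁅f i0 u, f i0 v⁆ ∈ (DD f).comap (emb i0) := by
  by_cases huv : u = v
  · rw [huv, commutatorElement_self]
    exact one_mem _
  by_cases hu : f i0 u = 1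
  · rw [hu, commutatorElement_one_left]
    exact one_mem _
  by_cases hv : f i0 v = 1
  · rw [hv, commutatorElement_one_right]
    exact one_mem _
  obtain ⟨e, h1, h2, h3⟩ := hs u v huv hu hv
  have h4 : ⁅cc f, shb (Multiplicative.ofAdd e) * cc f * (shb (Multiplicative.ofAdd e))⁻¹⁆ ∈ DD f := by
    rw [commutatorElement_def]
    have h5 : shb (Multiplicative.ofAdd e) * cc f * (shb (Multiplicative.ofAdd e))⁻¹ ∈ DD f :=
      mul_mem (mul_mem (shb_mem f _) (cc_mem f)) (inv_mem (shb_mem f _))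
    exact mul_mem (mul_mem (mul_mem (cc_mem f) h5) (inv_mem (cc_mem f))) (inv_mem h5)
  have h5 : shb (Multiplicative.ofAdd (-(u.val : ℤ))) *
      ⁅cc f, shb (Multiplicative.ofAdd e) * cc f * (shb (Multiplicative.ofAdd e))⁻¹⁆ *
      (shb (Multiplicative.ofAdd (-(u.val : ℤ))))⁻¹ ∈ DD f :=
    mul_mem (mul_mem (shb_mem f _) h4) (inv_mem (shb_mem f _))
  rw [cc_conj, cc_comm, cc_conj] at h5
  change emb i0 ⁅f i0 u, f i0 v⁆ ∈ DD f
  convert h5 using 1
  funext i
  rw [cc_apply, emb_apply]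
  by_cases hi : i = i0
  · subst hi
    rw [Pi.mulSingle_eq_same]
    congr 1
    funext n
    have h6 : n - ((Multiplicative.toAdd (Multiplicative.ofAdd (-(u.val : ℤ))) : ℤ) : ZMod (m i))
        = n + u := by
      simp
    change _ = ⁅f i (n - ((Multiplicative.toAdd (Multiplicative.ofAdd (-(u.val : ℤ))) : ℤ) :
      ZMod (m i))), f i (n - ((Multiplicative.toAdd (Multiplicative.ofAdd (-(u.val : ℤ))) : ℤ) :
      ZMod (m i)) - (e : ZMod (m i)))⁆
    rw [h6]
    by_cases hn : n = 0
    · subst hn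
      rw [Pi.mulSingle_eq_same, zero_add, h1]
    · rw [Pi.mulSingle_eq_of_ne hn, h2 (n + u) (fun h => hn (by simpa using h))]
  · rw [Pi.mulSingle_eq_of_ne hi]
    have h6 : (fun n => ⁅f i (n - ((Multiplicative.toAdd (Multiplicative.ofAdd (-(u.val : ℤ))) : ℤ) :
      ZMod (m i))), f i (n - ((Multiplicative.toAdd (Multiplicative.ofAdd (-(u.val : ℤ))) : ℤ) :
      ZMod (m i)) - (e : ZMod (m i)))⁆) = (1 : ZMod (m i) → P i) := by
      funext n
      exact h3 i hi _
    exact (congrArg Cyc.base h6).trans (map_one _) |>.symm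

theorem f_mem_normalizer [∀ i, NeZero (m i)] (f : ∀ i, ZMod (m i) → P i) (i0 : ι)
    (u : ZMod (m i0)) (x : P i0) : x ∈ (DD f).comap (emb i0) ↔
      f i0 u * x * (f i0 u)⁻¹ ∈ (DD f).comap (emb i0) := by
  have h1 : shb (Multiplicative.ofAdd (-(u.val : ℤ))) * cc f *
      (shb (Multiplicative.ofAdd (-(u.val : ℤ))))⁻¹ ∈ DD f :=
    mul_mem (mul_mem (shb_mem f _) (cc_mem f)) (inv_mem (shb_mem f _))
  rw [cc_conj] at h1
  set g : ∀ i, ZMod (m i) → P i := fun i n => f i (n - ((Multiplicative.toAdd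
    (Multiplicative.ofAdd (-(u.val : ℤ))) : ℤ) : ZMod (m i))) with hg
  have h2 : g i0 0 = f i0 u := by
    simp [hg]
  have h3 : emb i0 (f i0 u * x * (f i0 u)⁻¹) = cc g * emb i0 x * (cc g)⁻¹ := by
    rw [cc_inv]
    funext i
    rw [Pi.mul_apply, Pi.mul_apply, cc_apply, cc_apply, emb_apply, emb_apply]
    by_cases hi : i = i0
    · subst hi
      rw [Pi.mulSingle_eq_same, Pi.mulSingle_eq_same, ← map_mul, ← map_mul]
      congr 1
      funext n
      rw [Pi.mul_apply, Pi.mul_apply]
      by_cases hn : n = 0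
      · subst hn
        rw [Pi.mulSingle_eq_same, Pi.mulSingle_eq_same, h2]
      · rw [Pi.mulSingle_eq_of_ne hn, Pi.mulSingle_eq_of_ne hn]
        simp
    · rw [Pi.mulSingle_eq_of_ne hi, Pi.mulSingle_eq_of_ne hi, mul_one, ← map_mul]
      have h6 : (g i * fun n => (g i n)⁻¹) = 1 := by
        funext n
        simp
      rw [h6, map_one]
  change emb i0 x ∈ DD f ↔ emb i0 (f i0 u * x * (f i0 u)⁻¹) ∈ DD f
  rw [h3]
  constructor
  · intro h
    exact mul_mem (mul_mem h1 h) (inv_mem h1)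
  · intro h
    have h4 : emb i0 x = (cc g)⁻¹ * (cc g * emb i0 x * (cc g)⁻¹) * cc g := by group
    rw [h4]
    exact mul_mem (mul_mem (inv_mem h1) h) h1

/-- **The commutator subgroup of a factor embeds in the group with two generators.** -/
theorem commutator_mem [∀ i, NeZero (m i)] {f : ∀ i, ZMod (m i) → P i} {i0 : ι} (hs : Sep f i0)
    (hf : Subgroup.closure (Set.range (f i0)) = ⊤) (x : P i0) (hx : x ∈ commutator (P i0)) :
    emb i0 x ∈ DD f := by
  have h1 : ((DD f).comap (emb i0)).Normal := by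
    rw [← Subgroup.normalizer_eq_top_iff, eq_top_iff, ← hf, Subgroup.closure_le]
    rintro _ ⟨u, rfl⟩
    rw [SetLike.mem_coe, Subgroup.mem_normalizer_iff]
    exact f_mem_normalizer f i0 u
  have h2 := commutator_le_of_gen ((DD f).comap (emb i0)) (Set.range (f i0)) hf (by
    rintro _ ⟨u, rfl⟩ _ ⟨v, rfl⟩
    exact hs.comm_mem u v)
  exact h2 hx

omit [DecidableEq ι] in
theorem DD_torsionFree (f : ∀ i, ZMod (m i) → P i)
    (hP : ∀ i, ∀ g : P i, ∀ k : ℕ, 0 < k → g ^ k = 1 → g = 1) (x : DD f) (k : ℕ)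
    (hk : 0 < k) (h : x ^ k = 1) : x = 1 := by
  apply Subtype.ext
  funext i
  exact Cyc.torsionFree (hP i) _ k hk (congrFun (congrArg Subtype.val h) i)

omit [DecidableEq ι] in
theorem DD_gen (f : ∀ i, ZMod (m i) → P i) :
    Subgroup.closure {(⟨cc f, cc_mem f⟩ : DD f), ⟨shb (Multiplicative.ofAdd 1), shb_mem f _⟩} = ⊤ := by
  have h : Subgroup.closure (((↑) : DD f → (∀ i, Cyc (m i) (P i))) ⁻¹'
      {cc f, shb (Multiplicative.ofAdd 1)}) = ⊤ := Subgroup.closure_closure_coe_preimage
  have e : ({(⟨cc f, cc_mem f⟩ : DD f), ⟨shb (Multiplicative.ofAdd 1), shb_mem f _⟩} : Set (DD f)) =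
      ((↑) : DD f → (∀ i, Cyc (m i) (P i))) ⁻¹' {cc f, shb (Multiplicative.ofAdd 1)} := by
    ext x
    constructor
    · rintro (rfl | rfl)
      · exact Or.inl rfl
      · exact Or.inr rfl
    · rintro (h | h)
      · exact Or.inl (Subtype.ext h)
      · exact Or.inr (Subtype.ext h)
  rw [e]
  exact h

omit [DecidableEq ι] in
theorem DD_ab [∀ i, NeZero (m i)] (f : ∀ i, ZMod (m i) → P i) (i0 : ι)
    (ψ : P i0 →* Multiplicative ℤ) (hψ : ∏ n, ψ (f i0 n) = Multiplicative.ofAdd 1) :
    Nonempty (Abelianization (DD f) ≃* Multiplicative (ℤ × ℤ)) := by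
  refine abZ2 _ _ (DD_gen f) (((Cyc.sumh ψ).comp (Pi.evalMonoidHom _ i0)).comp (DD f).subtype)
    ((Cyc.kh.comp (Pi.evalMonoidHom _ i0)).comp (DD f).subtype) hψ ?_ rfl rfl
  change ∏ n, ψ ((Cyc.sh (Multiplicative.ofAdd 1) : Cyc (m i0) (P i0)).f n) = 1
  rw [Cyc.sh_f]
  simp

end two

end Pool.Agent.K4H2.TG
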