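import Pool.Agent.K4H2.TG.Cyc

set_option autoImplicit false

/-!
# Subgroups of finite index in iterated cyclic wreath products
-/

namespace Pool.Agent.K4H2.TG

open Cyc

variable {M m : ℕ} {G : Type} [Group G]

/-- the action on the finite set of pairs of coordinates -/
def act : Cyc M (Cyc m G) →* Equiv.Perm (ZMod M × ZMod m) where
  toFun x :=
    { toFun := fun q => (q.1 + (x.k : ZMod M), q.2 + ((x.f (q.1 + (x.k : ZMod M))).k : ZMod m))
      invFun := fun q => (q.1 - (x.k : ZMod M), q.2 - ((x.f q.1).k : ZMod m))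
      left_inv := by
        rintro ⟨a, b⟩
        simp
      right_inv := by
        rintro ⟨a, b⟩
        simp }
  map_one' := by
    ext q
    · simp [one_k]
    · simp [one_k, one_f]
  map_mul' x y := by
    apply Equiv.ext
    rintro ⟨a, b⟩
    apply Prod.ext
    · change a + (((x * y).k : ℤ) : ZMod M) = a + (y.k : ZMod M) + (x.k : ZMod M)
      rw [mul_k]
      push_cast
      ring
    · change b + ((((x * y).f (a + (((x * y).k : ℤ) : ZMod M))).k : ℤ) : ZMod m) =
        b + ((y.f (a + (y.k : ZMod M))).k : ZMod m) +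
          ((x.f (a + (y.k : ZMod M) + (x.k : ZMod M))).k : ZMod m)
      have h1 : a + (((x * y).k : ℤ) : ZMod M) = a + (y.k : ZMod M) + (x.k : ZMod M) := by
        rw [mul_k]
        push_cast
        ring
      rw [h1, mul_f, mul_k, add_sub_cancel_right]
      push_cast
      ring

theorem act_ker (x : Cyc M (Cyc m G)) (hx : act x = 1) :
    (x.k : ZMod M) = 0 ∧ ∀ n, ((x.f n).k : ZMod m) = 0 := by
  have h1 : ∀ q : ZMod M × ZMod m, (q.1 + (x.k : ZMod M),
      q.2 + ((x.f (q.1 + (x.k : ZMod M))).k : ZMod m)) = q := fun q => DFunLike.congr_fun hx q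
  have h2 : (x.k : ZMod M) = 0 := by
    have h3 := congrArg Prod.fst (h1 (0, 0))
    simpa using h3
  refine ⟨h2, fun n => ?_⟩
  have h3 := congrArg Prod.snd (h1 (n, 0))
  rw [h2] at h3
  simpa using h3

theorem virt [NeZero M] [NeZero m] {D : Type} [Group D] (ι : D →* Cyc M (Cyc m G))
    (hι : Function.Injective ι) :
    ∃ (D0 : Subgroup D) (a b : ℕ) (F : D0 →* (Fin a → G) × Multiplicative (Fin b → ℤ)),
      D0.FiniteIndex ∧ Function.Injective F := by
  let D0 : Subgroup D := (act.comp ι).ker
  let e1 : Fin (Fintype.card (ZMod M × ZMod m)) ≃ ZMod M × ZMod m := (Fintype.equivFin _).symm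
  let e2 : Fin (Fintype.card (Option (ZMod M))) ≃ Option (ZMod M) := (Fintype.equivFin _).symm
  have hk : ∀ d : D0, ((ι d.1).k : ZMod M) = 0 ∧ ∀ n, (((ι d.1).f n).k : ZMod m) = 0 := fun d =>
    act_ker _ d.2
  let kk : D → Option (ZMod M) → ℤ := fun d o => o.elim (ι d).k (fun n => ((ι d).f n).k)
  let F : D0 →* (Fin (Fintype.card (ZMod M × ZMod m)) → G) ×
      Multiplicative (Fin (Fintype.card (Option (ZMod M))) → ℤ) :=
    { toFun := fun d => (fun i => ((ι d.1).f (e1 i).1).f (e1 i).2,
        Multiplicative.ofAdd fun j => kk d.1 (e2 j))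
      map_one' := by
        apply Prod.ext
        · funext i
          change ((ι 1).f (e1 i).1).f (e1 i).2 = 1
          rw [map_one]
          rfl
        · apply Multiplicative.toAdd.injective
          funext j
          change kk 1 (e2 j) = 0
          simp only [kk, map_one]
          rcases e2 j with _ | n
          · rfl
          · rfl
      map_mul' := by
        intro x y
        apply Prod.ext
        · funext i
          change ((ι (x.1 * y.1)).f (e1 i).1).f (e1 i).2 =
            ((ι x.1).f (e1 i).1).f (e1 i).2 * ((ι y.1).f (e1 i).1).f (e1 i).2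
          rw [map_mul, mul_f, (hk x).1, sub_zero, mul_f, (hk x).2, sub_zero]
        · apply Multiplicative.toAdd.injective
          funext j
          change kk (x.1 * y.1) (e2 j) = kk x.1 (e2 j) + kk y.1 (e2 j)
          simp only [kk, map_mul]
          rcases e2 j with _ | n
          · rfl
          · change ((ι x.1 * ι y.1).f n).k = ((ι x.1).f n).k + ((ι y.1).f n).k
            rw [mul_f, (hk x).1, sub_zero, mul_k] }
  refine ⟨D0, _, _, F, inferInstance, ?_⟩
  intro x y hxy
  have h1 : ∀ i, ((ι x.1).f (e1 i).1).f (e1 i).2 = ((ι y.1).f (e1 i).1).f (e1 i).2 := fun i =>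
    congrFun (congrArg Prod.fst hxy) i
  have h2 : ∀ j, kk x.1 (e2 j) = kk y.1 (e2 j) := fun j =>
    congrFun (congrArg (fun z => Multiplicative.toAdd (Prod.snd z)) hxy) j
  apply Subtype.ext
  apply hι
  apply Cyc.ext
  · funext n
    apply Cyc.ext
    · funext v
      have h3 := h1 (e1.symm (n, v))
      rwa [Equiv.apply_symm_apply] at h3
    · have h3 := h2 (e2.symm (some n))
      rwa [Equiv.apply_symm_apply] at h3
  · have h3 := h2 (e2.symm none)
    rwa [Equiv.apply_symm_apply] at h3

/-- functoriality -/
def Cyc.map {P Q : Type} [Group P] [Group Q] (f : P →* Q) : Cyc m P →* Cyc m Q where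
  toFun x := ⟨fun n => f (x.f n), x.k⟩
  map_one' := by
    apply Cyc.ext
    · funext n
      exact map_one f
    · rfl
  map_mul' x y := by
    apply Cyc.ext
    · funext n
      exact map_mul f _ _
    · rfl

theorem Cyc.map_injective {P Q : Type} [Group P] [Group Q] (f : P →* Q)
    (hf : Function.Injective f) : Function.Injective (Cyc.map (m := m) f) := by
  intro x y h
  apply Cyc.ext
  · funext n
    exact hf (congrFun (congrArg Cyc.f h) n)
  · have h1 := congrArg Cyc.k h
    exact h1

end Pool.Agent.K4H2.TG
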